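import Pool.Agent.H67.OL.PBW2
import Pool.Agent.H67.OL.DOM

/-!
# Extension of a cocycle of a subalgebra to the left ideal it generates
-/

set_option autoImplicit false

namespace H89R3.BK

open H67OL H67OL.DOMaux MvPolynomial

variable {K : Type} [Field K] {L : Type} [LieRing L] [LieAlgebra K L]

/-- products of basis elements -/
noncomputable def pr {I : Type} (b : Module.Basis I K L) (l : List I) :
    UniversalEnvelopingAlgebra K L :=
  (l.map (fun i => UniversalEnvelopingAlgebra.ι K (b i))).prod

/-- span of the products of less than `n` basis elements -/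
noncomputable def FF {I : Type} (b : Module.Basis I K L) (n : ℕ) :
    Submodule K (UniversalEnvelopingAlgebra K L) :=
  Submodule.span K {z | ∃ l : List I, l.length < n ∧ z = pr b l}

section

variable {I : Type} (b : Module.Basis I K L)

lemma pr_nil : pr b [] = 1 := by simp [pr]

lemma pr_cons (i : I) (l : List I) : pr b (i :: l) = UniversalEnvelopingAlgebra.ι K (b i) * pr b l := by
  simp [pr]

lemma pr_append (l l' : List I) : pr b (l ++ l') = pr b l * pr b l' := by
  simp [pr]

lemma pr_snoc (l : List I) (i : I) :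
    pr b (l ++ [i]) = pr b l * UniversalEnvelopingAlgebra.ι K (b i) := by
  simp [pr]

lemma pr_mem {l : List I} {n : ℕ} (h : l.length < n) : pr b l ∈ FF b n :=
  Submodule.subset_span ⟨l, h, rfl⟩

lemma FF_mono {n m : ℕ} (h : n ≤ m) : FF b n ≤ FF b m :=
  Submodule.span_mono (by rintro _ ⟨l, hl, rfl⟩; exact ⟨l, hl.trans_le h, rfl⟩)

lemma ι_mul_pr_mem (x : L) {l : List I} {n : ℕ} (h : l.length + 1 < n) :
    UniversalEnvelopingAlgebra.ι K x * pr b l ∈ FF b n := by
  rw [← b.linearCombination_repr x, Finsupp.linearCombination_apply, Finsupp.sum, map_sum,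
    Finset.sum_mul]
  refine Submodule.sum_mem _ fun i _ => ?_
  rw [map_smul, smul_mul_assoc]
  refine Submodule.smul_mem _ _ ?_
  rw [← pr_cons]
  exact pr_mem b (by simpa using h)

lemma ι_mul_FF (i : I) {n : ℕ} {z : UniversalEnvelopingAlgebra K L} (h : z ∈ FF b n) :
    UniversalEnvelopingAlgebra.ι K (b i) * z ∈ FF b (n + 1) := by
  have : FF b n ≤ Submodule.comap
      (LinearMap.mulLeft K (UniversalEnvelopingAlgebra.ι K (b i))) (FF b (n + 1)) := by
    refine Submodule.span_le.2 ?_
    rintro _ ⟨l, hl, rfl⟩
    change UniversalEnvelopingAlgebra.ι K (b i) * pr b l ∈ FF b (n + 1)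
    rw [← pr_cons]
    exact pr_mem b (by simpa using hl)
  exact this h

lemma lie_ι (x y : L) : UniversalEnvelopingAlgebra.ι K x * UniversalEnvelopingAlgebra.ι K y -
    UniversalEnvelopingAlgebra.ι K y * UniversalEnvelopingAlgebra.ι K x =
    UniversalEnvelopingAlgebra.ι K ⁅x, y⁆ := by
  let _ : LieRing (UniversalEnvelopingAlgebra K L) := LieRing.ofAssociativeRing
  rw [LieHom.map_lie, LieRing.of_associative_ring_bracket]

lemma perm_sub {l l' : List I} (h : l.Perm l') : pr b l - pr b l' ∈ FF b l.length := by
  induction h with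
  | nil => simp
  | cons x h ih =>
    rw [pr_cons, pr_cons, ← mul_sub]
    exact ι_mul_FF b x ih
  | swap x y l =>
    rw [pr_cons, pr_cons, pr_cons, pr_cons, ← mul_assoc, ← mul_assoc, ← sub_mul, lie_ι]
    exact ι_mul_pr_mem b _ (by simp)
  | trans h1 h2 ih1 ih2 =>
    rw [← h1.length_eq] at ih2
    have := Submodule.add_mem _ ih1 ih2
    rwa [sub_add_sub_cancel] at this

lemma exists_FF (u : UniversalEnvelopingAlgebra K L) : ∃ n, u ∈ FF b n := by
  have h4 : u ∈ Algebra.adjoin K (Set.range fun i => UniversalEnvelopingAlgebra.ι K (b i)) := by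
    rw [adjoin_top b]
    exact Algebra.mem_top
  rw [← Subalgebra.mem_toSubmodule, Algebra.adjoin_eq_span] at h4
  induction h4 using Submodule.span_induction with
  | mem x hx =>
    obtain ⟨l, rfl⟩ := mem_closure_range _ hx
    exact ⟨l.length + 1, pr_mem b (Nat.lt_succ_self _)⟩
  | zero => exact ⟨0, Submodule.zero_mem _⟩
  | add x y _ _ hx hy =>
    obtain ⟨n, hn⟩ := hx
    obtain ⟨m, hm⟩ := hy
    exact ⟨max n m, Submodule.add_mem _ (FF_mono b (le_max_left _ _) hn)
      (FF_mono b (le_max_right _ _) hm)⟩
  | smul a x _ hx =>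
    obtain ⟨n, hn⟩ := hx
    exact ⟨n, Submodule.smul_mem _ _ hn⟩

end

section

variable {I : Type} [LinearOrder I] (b : Module.Basis I K L)

/-- the sorted products are linearly independent: a linear map can be prescribed on them -/
lemma exists_map {E : Type} [AddCommGroup E] [Module K E] (v : List I → E) :
    ∃ θ : UniversalEnvelopingAlgebra K L →ₗ[K] E,
      ∀ l : List I, l.Pairwise (· ≤ ·) → θ (pr b l) = v l := by
  classical
  obtain ⟨ρ, hlie, hρ⟩ := t_PBW2 K L I b
  obtain ⟨Φ, hΦ'⟩ : ∃ Φ : UniversalEnvelopingAlgebra K L →ₐ[K]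
      Module.End K (MvPolynomial I K), ∀ x, Φ (UniversalEnvelopingAlgebra.ι K x) = ρ x := by
    let _ : LieRing (Module.End K (MvPolynomial I K)) := LieRing.ofAssociativeRing
    let ρ' : L →ₗ⁅K⁆ Module.End K (MvPolynomial I K) :=
      { ρ with
        map_lie' := by
          intro x y
          rw [LieRing.of_associative_ring_bracket]
          exact hlie x y }
    exact ⟨UniversalEnvelopingAlgebra.lift K ρ', fun x =>
      UniversalEnvelopingAlgebra.lift_ι_apply K ρ' x⟩
  set g : I → UniversalEnvelopingAlgebra K L := fun i => UniversalEnvelopingAlgebra.ι K (b i)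
    with hg
  have hΦ : ∀ i, Φ (g i) = ρ (b i) := fun i => hΦ' (b i)
  have hinj : LinearMap.ker (Psi (K := K) g) = ⊥ := by
    rw [Submodule.eq_bot_iff]
    intro σ hσ
    by_contra hne
    have := act_ne b ρ g Φ hΦ hρ hne (one_ne_zero (α := MvPolynomial I K))
    rw [LinearMap.mem_ker.1 hσ, map_zero] at this
    exact this rfl
  obtain ⟨φ, hφ⟩ := LinearMap.exists_leftInverse_of_injective (Psi (K := K) g) hinj
  refine ⟨((basisMonomials I K).constr K fun s => v (lst s)).comp φ, ?_⟩
  intro l hl
  have h1 : pr b l = Psi (K := K) g (monomial (Multiset.toFinsupp (l : Multiset I)) 1) := by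
    rw [Psi_monomial, one_smul, lst_of_sorted l hl]
    rfl
  have h2 : (monomial (Multiset.toFinsupp (l : Multiset I)) 1 : MvPolynomial I K) =
      basisMonomials I K (Multiset.toFinsupp (l : Multiset I)) := by
    rw [coe_basisMonomials]
  rw [LinearMap.comp_apply, h1, ← LinearMap.comp_apply φ, hφ, LinearMap.id_apply, h2,
    Module.Basis.constr_basis, lst_of_sorted l hl]

/-- **Extension of cocycles.** -/
lemma exists_theta {E : Type} [AddCommGroup E] [Module K E]
    [Module (UniversalEnvelopingAlgebra K L) E]
    [IsScalarTower K (UniversalEnvelopingAlgebra K L) E]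
    (M : LieSubalgebra K L) (J : Set I) (hup : ∀ i ∈ J, ∀ j, i ≤ j → j ∈ J)
    (hJ : ∀ i ∈ J, b i ∈ M) (hspan : (M : Submodule K L) ≤ Submodule.span K (b '' J))
    (c : M →ₗ[K] E)
    (hc : ∀ x y : M, c ⁅x, y⁆ = UniversalEnvelopingAlgebra.ι K (x : L) • c y -
      UniversalEnvelopingAlgebra.ι K (y : L) • c x) :
    ∃ θ : UniversalEnvelopingAlgebra K L →ₗ[K] E,
      ∀ (u : UniversalEnvelopingAlgebra K L) (m : M),
        θ (u * UniversalEnvelopingAlgebra.ι K (m : L)) = u • c m := by
  classical
  let cc : I → E := fun i => if h : i ∈ J then c ⟨b i, hJ i h⟩ else 0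
  have hcc : ∀ i (h : i ∈ J), cc i = c ⟨b i, hJ i h⟩ := fun i h => dif_pos h
  obtain ⟨θ, hθ⟩ := exists_map b (fun l : List I =>
    match l.getLast? with
    | none => (0 : E)
    | some m => pr b l.dropLast • cc m)
  refine ⟨θ, ?_⟩
  have hθ' : ∀ (l : List I) (m : I), (l ++ [m]).Pairwise (· ≤ ·) →
      θ (pr b (l ++ [m])) = pr b l • cc m := by
    intro l m h
    rw [hθ _ h]
    simp
  -- from basis elements to all elements of `M`
  have hlin : ∀ u : UniversalEnvelopingAlgebra K L,
      (∀ m (h : m ∈ J), θ (u * UniversalEnvelopingAlgebra.ι K (b m)) = u • c ⟨b m, hJ m h⟩) →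
      ∀ m : M, θ (u * UniversalEnvelopingAlgebra.ι K (m : L)) = u • c m := by
    intro u hu m
    have h1 : (⊤ : Submodule K M) ≤ Submodule.span K {z : M | ∃ i, ∃ h : i ∈ J, z = ⟨b i, hJ i h⟩} := by
      intro z _
      have h2 := hspan z.2
      have h3 : Submodule.span K (b '' J) = (Submodule.span K
          {z : M | ∃ i, ∃ h : i ∈ J, z = ⟨b i, hJ i h⟩}).map (M : Submodule K L).subtype := by
        rw [Submodule.map_span]
        congr 1
        ext x
        constructor
        · rintro ⟨i, hi, rfl⟩
          exact ⟨⟨b i, hJ i hi⟩, ⟨i, hi, rfl⟩, rfl⟩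
        · rintro ⟨_, ⟨i, hi, rfl⟩, rfl⟩
          exact ⟨i, hi, rfl⟩
      rw [h3] at h2
      obtain ⟨y, hy, hyz⟩ := h2
      have : y = z := Subtype.ext hyz
      rwa [← this]
    have h2 := h1 (Submodule.mem_top (x := m))
    induction h2 using Submodule.span_induction with
    | mem x hx =>
      obtain ⟨i, hi, rfl⟩ := hx
      exact hu i hi
    | zero => simp
    | add x y _ _ hx hy =>
      rw [map_add, smul_add, ← hx, ← hy, ← map_add, ← mul_add, ← map_add]
      rfl
    | smul a x _ hx =>
      have e : UniversalEnvelopingAlgebra.ι K ((a • x : M) : L) =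
        a • UniversalEnvelopingAlgebra.ι K (x : L) := by
        rw [← map_smul]
        rfl
      rw [map_smul, e, mul_smul_comm, map_smul, hx, smul_comm]
  have key : ∀ n : ℕ, ∀ l : List I, l.length < n → ∀ m (h : m ∈ J),
      θ (pr b l * UniversalEnvelopingAlgebra.ι K (b m)) = pr b l • c ⟨b m, hJ m h⟩ := by
    intro n
    induction n with
    | zero => intro l hl; exact absurd hl (Nat.not_lt_zero _)
    | succ n ih =>
      have hF : ∀ u ∈ FF b n, ∀ m : M,
          θ (u * UniversalEnvelopingAlgebra.ι K (m : L)) = u • c m := by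
        intro u hu m
        induction hu using Submodule.span_induction with
        | mem x hx =>
          obtain ⟨l, hl, rfl⟩ := hx
          exact hlin _ (ih l hl) m
        | zero => simp
        | add x y _ _ hx hy => rw [add_mul, map_add, hx, hy, add_smul]
        | smul a x _ hx => rw [smul_mul_assoc, map_smul, hx, smul_assoc]
      -- sorted lists followed by anything
      have hred : ∀ l : List I, l.length ≤ n → ∀ (x : M),
          θ (pr b (l.mergeSort (· ≤ ·)) * UniversalEnvelopingAlgebra.ι K (x : L)) =
            pr b (l.mergeSort (· ≤ ·)) • c x →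
          θ (pr b l * UniversalEnvelopingAlgebra.ι K (x : L)) = pr b l • c x := by
        intro l hl x hx
        have h1 := perm_sub b (List.mergeSort_perm l (· ≤ ·)).symm
        have h2 := hF _ (FF_mono b hl h1) x
        rw [sub_mul, map_sub, sub_smul, hx] at h2
        exact sub_left_injective h2
      intro l hl m hm
      have hl' : l.length ≤ n := Nat.lt_succ_iff.1 hl
      refine hred l hl' ⟨b m, hJ m hm⟩ ?_
      have hs : (l.mergeSort (· ≤ ·)).Pairwise (· ≤ ·) := List.pairwise_mergeSort' _ _
      have hlen : (l.mergeSort (· ≤ ·)).length ≤ n := by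
        rw [List.length_mergeSort]; exact hl'
      generalize l.mergeSort (· ≤ ·) = s at hs hlen
      change θ (pr b s * UniversalEnvelopingAlgebra.ι K (b m)) = _
      rcases List.eq_nil_or_concat s with rfl | ⟨s', j, hsj⟩
      · have := hθ' [] m (by simp)
        rw [List.nil_append] at this
        rw [pr_nil, one_mul, one_smul, ← hcc m hm]
        simpa [pr] using this
      · rw [List.concat_eq_append] at hsj
        subst hsj
        by_cases hjm : j ≤ m
        · have h3 : ((s' ++ [j]) ++ [m]).Pairwise (· ≤ ·) := by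
            rw [List.pairwise_append]
            refine ⟨hs, by simp, ?_⟩
            intro a ha x hx
            rw [List.mem_singleton] at hx
            subst hx
            rw [List.mem_append, List.mem_singleton] at ha
            rcases ha with ha | rfl
            · exact ((List.pairwise_append.1 hs).2.2 a ha j (by simp)).trans hjm
            · exact hjm
          have := hθ' _ m h3
          rw [← pr_snoc, this, hcc m hm]
        · have hjm' : m ≤ j := (not_le.1 hjm).le
          have hj : j ∈ J := hup m hm j hjm'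
          rw [List.length_append, List.length_singleton] at hlen
          have e1 : pr b (s' ++ [j]) * UniversalEnvelopingAlgebra.ι K (b m) =
              pr b (s' ++ [m]) * UniversalEnvelopingAlgebra.ι K (b j) +
              pr b s' * UniversalEnvelopingAlgebra.ι K
                ((⁅(⟨b j, hJ j hj⟩ : M), (⟨b m, hJ m hm⟩ : M)⁆ : M) : L) := by
            have := lie_ι (K := K) (b j) (b m)
            rw [pr_snoc, pr_snoc, mul_assoc, mul_assoc, ← mul_add]
            congr 1
            change _ = _ + UniversalEnvelopingAlgebra.ι K ⁅b j, b m⁆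
            rw [← this]
            abel
          have e2 : θ (pr b s' * UniversalEnvelopingAlgebra.ι K
                ((⁅(⟨b j, hJ j hj⟩ : M), (⟨b m, hJ m hm⟩ : M)⁆ : M) : L)) =
                pr b s' • c ⁅(⟨b j, hJ j hj⟩ : M), (⟨b m, hJ m hm⟩ : M)⁆ :=
            hF _ (pr_mem b (by omega)) _
          have e3 : θ (pr b (s' ++ [m]) * UniversalEnvelopingAlgebra.ι K (b j)) =
              pr b (s' ++ [m]) • c ⟨b j, hJ j hj⟩ := by
            refine hred (s' ++ [m]) (by simpa using hlen) ⟨b j, hJ j hj⟩ ?_
            change θ (pr b _ * UniversalEnvelopingAlgebra.ι K (b j)) = _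
            have hs2 : ((s' ++ [m]).mergeSort (· ≤ ·)).Pairwise (· ≤ ·) :=
              List.pairwise_mergeSort' _ _
            have h3 : ((s' ++ [m]).mergeSort (· ≤ ·) ++ [j]).Pairwise (· ≤ ·) := by
              rw [List.pairwise_append]
              refine ⟨hs2, by simp, ?_⟩
              intro a ha x hx
              rw [List.mem_singleton] at hx
              subst hx
              have ha' : a ∈ s' ++ [m] := (List.mergeSort_perm _ _).mem_iff.1 ha
              rw [List.mem_append, List.mem_singleton] at ha'
              rcases ha' with ha' | rfl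
              · exact (List.pairwise_append.1 hs).2.2 a ha' x (by simp)
              · exact hjm'
            rw [← pr_snoc, hθ' _ j h3, hcc j hj]
          rw [e1, map_add, e2, e3, hc, pr_snoc, pr_snoc, mul_smul, mul_smul, smul_sub]
          simp only [add_sub_cancel]
  intro u m
  obtain ⟨n, hn⟩ := exists_FF b u
  induction hn using Submodule.span_induction with
  | mem x hx =>
    obtain ⟨l, hl, rfl⟩ := hx
    exact hlin _ (key n l hl) m
  | zero => simp
  | add x y _ _ hx hy => rw [add_mul, map_add, hx, hy, add_smul]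
  | smul a x _ hx => rw [smul_mul_assoc, map_smul, hx, smul_assoc]

end

/-- Extension of cocycles, without reference to a basis. -/
lemma exists_theta' {E : Type} [AddCommGroup E] [Module K E]
    [Module (UniversalEnvelopingAlgebra K L) E]
    [IsScalarTower K (UniversalEnvelopingAlgebra K L) E]
    (M : LieSubalgebra K L) (c : M →ₗ[K] E)
    (hc : ∀ x y : M, c ⁅x, y⁆ = UniversalEnvelopingAlgebra.ι K (x : L) • c y -
      UniversalEnvelopingAlgebra.ι K (y : L) • c x) :
    ∃ θ : UniversalEnvelopingAlgebra K L →ₗ[K] E,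
      ∀ (u : UniversalEnvelopingAlgebra K L) (m : M),
        θ (u * UniversalEnvelopingAlgebra.ι K (m : L)) = u • c m := by
  classical
  obtain ⟨N, hN⟩ := Submodule.exists_isCompl (M : Submodule K L)
  let bM := Module.Basis.ofVectorSpace K (M : Submodule K L)
  let bN := Module.Basis.ofVectorSpace K N
  let _ : LinearOrder (Module.Basis.ofVectorSpaceIndex K (M : Submodule K L)) :=
    IsWellOrder.linearOrder WellOrderingRel
  let _ : LinearOrder (Module.Basis.ofVectorSpaceIndex K N) :=
    IsWellOrder.linearOrder WellOrderingRel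
  let b : Module.Basis (Lex (Module.Basis.ofVectorSpaceIndex K N ⊕
      Module.Basis.ofVectorSpaceIndex K (M : Submodule K L))) K L :=
    ((bN.prod bM).map (Submodule.prodEquivOfIsCompl N (M : Submodule K L) hN.symm)).reindex toLex
  have hbr : ∀ j, b (toLex (Sum.inr j)) = (bM j : L) := by
    intro j
    simp [b]
  have hbl : ∀ j, b (toLex (Sum.inl j)) = (bN j : L) := by
    intro j
    simp [b]
  refine exists_theta b M {i | ∃ j, i = toLex (Sum.inr j)} ?_ ?_ ?_ c hc
  · rintro _ ⟨j, rfl⟩ i hi
    rcases h : ofLex i with i' | i'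
    · exfalso
      have : i = toLex (Sum.inl i') := by rw [← h]; rfl
      rw [this] at hi
      exact absurd hi (by simp)
    · exact ⟨i', by rw [← h]; rfl⟩
  · rintro _ ⟨j, rfl⟩
    rw [hbr]
    exact (bM j).2
  · intro x hx
    have h1 : (⟨x, hx⟩ : (M : Submodule K L)) ∈ Submodule.span K (Set.range bM) := by
      rw [bM.span_eq]; trivial
    have h2 := Submodule.mem_map_of_mem (f := (M : Submodule K L).subtype) h1
    rw [Submodule.map_span] at h2
    refine Submodule.span_mono ?_ h2
    rintro _ ⟨_, ⟨j, rfl⟩, rfl⟩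
    exact ⟨toLex (Sum.inr j), ⟨j, rfl⟩, hbr j⟩

end H89R3.BK
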