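import Mathlib

/-!
# Bloch-Kato Lie algebras: definitions
-/

set_option autoImplicit false

namespace H89R3.BK

variable (K : Type) [Field K] {L : Type} [LieRing L] [LieAlgebra K L]

/-- The Lie subalgebra generated by the subspace `W` of `L` is quadratic, with `W` as space of
generators: for a (finite) basis `w` of `W`, the kernel of the homomorphism
`FreeLieAlgebra K (Fin d) → L`, `x_i ↦ w i`, is generated as an ideal by the elements of degree
two (linear combinations of the `⁅x_i, x_j⁆`) that it contains. -/
def QuadraticOn (W : Submodule K L) : Prop :=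
  ∃ (d : ℕ) (w : Module.Basis (Fin d) K W),
    (FreeLieAlgebra.lift K (fun i => (w i : L))).ker =
      LieSubmodule.lieSpan K (FreeLieAlgebra K (Fin d))
        {z | z ∈ (FreeLieAlgebra.lift K (fun i => (w i : L))).ker ∧
          z ∈ Submodule.span K (Set.range fun p : Fin d × Fin d =>
            ⁅FreeLieAlgebra.of K p.1, FreeLieAlgebra.of K p.2⁆)}

/-- `ℳ` is a grading of the Lie algebra `L` by positive integers with finite-dimensional
components. -/
structure IsLieGrading (ℳ : ℕ → Submodule K L) : Prop where
  internal : DirectSum.IsInternal ℳ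
  zero_eq : ℳ 0 = ⊥
  finite : ∀ i, FiniteDimensional K (ℳ i)
  lie_mem : ∀ i j : ℕ, ∀ x ∈ ℳ i, ∀ y ∈ ℳ j, ⁅x, y⁆ ∈ ℳ (i + j)

/-- Bloch-Kato Lie algebras: `L` is standard (generated by its component of degree one) and every
subalgebra generated by elements of degree one is quadratic; for `W = ℳ 1` this says
that `L` itself is quadratic. -/
structure IsBlochKato (ℳ : ℕ → Submodule K L) : Prop extends IsLieGrading K ℳ where
  standard : LieSubalgebra.lieSpan K L (ℳ 1 : Set L) = ⊤
  quadratic : ∀ W : Submodule K L, W ≤ ℳ 1 → QuadraticOn K W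

variable (L)

/-- The augmentation of the enveloping algebra: the algebra homomorphism to `K` that vanishes
on `L`. -/
noncomputable def aug : UniversalEnvelopingAlgebra K L →ₐ[K] K :=
  letI : LieRing K := LieRing.ofAssociativeRing
  UniversalEnvelopingAlgebra.lift K (0 : L →ₗ⁅K⁆ K)

/-- The trivial one-dimensional module over the enveloping algebra. -/
noncomputable def triv : ModuleCat.{0} (UniversalEnvelopingAlgebra K L) :=
  (ModuleCat.restrictScalars (aug K L).toRingHom).obj (ModuleCat.of K K)

/-- The cohomology `H^n(L) = Ext^n_{U(L)}(K, K)`. -/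
abbrev Coh (n : ℕ) : Type := CategoryTheory.Abelian.Ext.{0} (triv K L) (triv K L) n

/-- The Betti numbers. -/
noncomputable def betti (n : ℕ) : ℕ := Module.finrank K (Coh K L n)

/-- `L` has cohomological dimension `n`: `n` is the largest degree with nonzero cohomology. -/
def HasCd (n : ℕ) : Prop := IsGreatest {m : ℕ | Nontrivial (Coh K L m)} n

end H89R3.BK
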