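import Pool.Agent.H89R3.BK.Res

/-!
# Comparison with `Ext`
-/

set_option autoImplicit false

namespace H89R3.BK

open Matrix CategoryTheory

variable {K : Type} [Field K] {L : Type} [LieRing L] [LieAlgebra K L]

section

variable {V W : Submodule K L} (R : LinRes V W)

/-- the differential as linear map -/
noncomputable def dl (m : ℕ) : (R.X (m + 1) → UniversalEnvelopingAlgebra K L)
    →ₗ[UniversalEnvelopingAlgebra K L] (R.X m → UniversalEnvelopingAlgebra K L) where
  toFun u := u ᵥ* R.D m
  map_add' _ _ := add_vecMul _ _ _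
  map_smul' _ _ := smul_vecMul _ _ _

lemma dl_apply (m : ℕ) (u : R.X (m + 1) → UniversalEnvelopingAlgebra K L) :
    dl R m u = u ᵥ* R.D m := rfl

lemma dl_dl (m : ℕ) (u : R.X (m + 2) → UniversalEnvelopingAlgebra K L) :
    dl R m (dl R (m + 1) u) = 0 := by
  rw [dl_apply, dl_apply, vecMul_vecMul, R.comp, vecMul_zero]

/-- the complex -/
noncomputable def cx : ChainComplex (ModuleCat.{0} (UniversalEnvelopingAlgebra K L)) ℕ :=
  ChainComplex.of (fun m => ModuleCat.of _ (R.X m → UniversalEnvelopingAlgebra K L))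
    (fun m => ModuleCat.ofHom (dl R m)) (by
      intro m
      ext u
      exact congrFun (dl_dl R m _) _)

lemma cx_d (m : ℕ) : (cx R).d (m + 1) m = ModuleCat.ofHom (dl R m) := 
  ChainComplex.of_d (fun m => ModuleCat.of _ (R.X m → UniversalEnvelopingAlgebra K L))
    (fun m => ModuleCat.ofHom (dl R m)) m

variable (M : ModuleCat.{0} (UniversalEnvelopingAlgebra K L))
  (p : UniversalEnvelopingAlgebra K L →ₗ[UniversalEnvelopingAlgebra K L] M)

/-- the augmentation -/
noncomputable def p0 : (R.X 0 → UniversalEnvelopingAlgebra K L)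
    →ₗ[UniversalEnvelopingAlgebra K L] M := p.comp (LinearMap.proj default)

lemma p0_apply (u : R.X 0 → UniversalEnvelopingAlgebra K L) : p0 R M p u = p (u default) := rfl

lemma exact_p0 (hk : LinearMap.ker p = LI W) (u : R.X 0 → UniversalEnvelopingAlgebra K L) :
    p0 R M p u = 0 ↔ ∃ u', dl R 0 u' = u := by
  rw [p0_apply, ← LinearMap.mem_ker, hk, R.aug]
  rfl

lemma cx_d_p0 (hk : LinearMap.ker p = LI W) :
    (cx R).d 1 0 ≫ ModuleCat.ofHom (p0 R M p) = 0 := by
  rw [cx_d]
  ext u
  exact (exact_p0 R M p hk _).2 ⟨_, rfl⟩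

lemma cx_d_apply (m : ℕ) (u : R.X (m + 1) → UniversalEnvelopingAlgebra K L) :
    (ConcreteCategory.hom ((cx R).d (m + 1) m)) u = dl R m u := by
  rw [cx_d]
  rfl

/-- the augmentation as morphism of complexes -/
noncomputable def cxπ (hk : LinearMap.ker p = LI W) :
    cx R ⟶ (ChainComplex.single₀ _).obj M :=
  ((cx R).toSingle₀Equiv M).symm ⟨ModuleCat.ofHom (p0 R M p), cx_d_p0 R M p hk⟩

lemma cxπ_f (hk : LinearMap.ker p = LI W) :
    (cxπ R M p hk).f 0 = ModuleCat.ofHom (p0 R M p) :=
  ChainComplex.toSingle₀Equiv_symm_apply_f_zero (C := cx R) (X := M)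
    (ModuleCat.ofHom (p0 R M p)) (cx_d_p0 R M p hk)

lemma cxπ_apply (hk : LinearMap.ker p = LI W) (u : R.X 0 → UniversalEnvelopingAlgebra K L) :
    (ConcreteCategory.hom ((cxπ R M p hk).f 0)) u = p0 R M p u := by
  rw [cxπ_f]
  rfl

lemma cxπ_quasiIso (hp : Function.Surjective p) (hk : LinearMap.ker p = LI W) :
    QuasiIso (cxπ R M p hk) where
  quasiIsoAt n := by
    cases n with
    | zero =>
      rw [ChainComplex.quasiIsoAt₀_iff, ShortComplex.quasiIso_iff_of_zeros' _ rfl rfl rfl]
      constructor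
      · rw [ShortComplex.moduleCat_exact_iff]
        intro u hu
        have hu' : p0 R M p u = 0 := (cxπ_apply R M p hk u).symm.trans hu
        obtain ⟨u', hu'⟩ := (exact_p0 R M p hk _).1 hu'
        exact ⟨u', (cx_d_apply R 0 u').trans hu'⟩
      · rw [ModuleCat.epi_iff_surjective]
        intro y
        obtain ⟨x, hx⟩ := hp y
        exact ⟨fun _ => x, (cxπ_apply R M p hk (fun _ => x)).trans hx⟩
    | succ m =>
      rw [quasiIsoAt_iff_exactAt' (hL := ChainComplex.exactAt_succ_single_obj ..),
          HomologicalComplex.exactAt_iff' _ (m + 2) (m + 1) m (by simp) (by simp)]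
      rw [ShortComplex.moduleCat_exact_iff]
      intro u hu
      have hu' : dl R m u = 0 := (cx_d_apply R m u).symm.trans hu
      obtain ⟨u', hu'⟩ := R.exact m u hu'
      exact ⟨u', (cx_d_apply R (m + 1) u').trans hu'⟩

/-- The projective resolution of `M`. -/
noncomputable def prRes (hp : Function.Surjective p) (hk : LinearMap.ker p = LI W) :
    ProjectiveResolution M where
  complex := cx R
  projective m := by
    change Projective (ModuleCat.of _ (R.X m → UniversalEnvelopingAlgebra K L))
    rw [← IsProjective.iff_projective]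
    infer_instance
  π := cxπ R M p hk
  quasiIso := cxπ_quasiIso R M p hp hk

lemma aug_ι (x : L) : aug K L (UniversalEnvelopingAlgebra.ι K x) = 0 := by
  let _ : LieRing K := LieRing.ofAssociativeRing
  exact UniversalEnvelopingAlgebra.lift_ι_apply K (0 : L →ₗ⁅K⁆ K) x

lemma aug_S1 {s : UniversalEnvelopingAlgebra K L} (hs : s ∈ S1 V) : aug K L s = 0 := by
  obtain ⟨x, _, rfl⟩ := mem_S1.1 hs
  exact aug_ι x

/-- the identity map from `K` to the trivial module -/
def toT : K → triv K L := fun t => t

/-- the identity map from the trivial module to `K` -/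
def ofT : triv K L → K := fun t => t

lemma ofT_smul (u : UniversalEnvelopingAlgebra K L) (t : triv K L) :
    ofT (u • t) = aug K L u * ofT t := rfl

lemma ofT_add (s t : triv K L) : ofT (s + t) = ofT s + ofT t := rfl

lemma ofT_zero : ofT (0 : triv K L) = 0 := rfl

lemma ofT_inj {s t : triv K L} (h : ofT s = ofT t) : s = t := h

lemma ofT_sum {ι : Type} (s : Finset ι) (f : ι → triv K L) :
    ofT (∑ i ∈ s, f i) = ∑ i ∈ s, ofT (f i) := by
  classical
  induction s using Finset.induction_on with
  | empty => simp [ofT_zero]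
  | insert a s ha ih => rw [Finset.sum_insert ha, Finset.sum_insert ha, ofT_add, ih]

lemma dl_comp (m : ℕ) (f : (R.X m → UniversalEnvelopingAlgebra K L)
    →ₗ[UniversalEnvelopingAlgebra K L] triv K L) (u) : f (dl R m u) = 0 := by
  classical
  rw [LinearMap.pi_apply_eq_sum_univ f (dl R m u)]
  refine Finset.sum_eq_zero fun j _ => ?_
  apply ofT_inj
  rw [ofT_smul, ofT_zero, dl_apply, vecMul, dotProduct, map_sum, Finset.sum_mul]
  refine Finset.sum_eq_zero fun i _ => ?_
  rw [map_mul, aug_S1 (R.lin m i j), mul_zero, zero_mul]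

lemma d_comp (m : ℕ) (f : (cx R).X m ⟶ triv K L) : (cx R).d (m + 1) m ≫ f = 0 := by
  rw [cx_d]
  ext u
  exact dl_comp R m f.hom u

/-- the linear map to `Ext` -/
noncomputable def Θ (hp : Function.Surjective p) (hk : LinearMap.ker p = LI W) (m : ℕ) :
    ((cx R).X m ⟶ triv K L) →ₗ[K] Abelian.Ext.{0} M (triv K L) m where
  toFun f := (prRes R M p hp hk).extMk f (m + 1) rfl (d_comp R m f)
  map_add' f g := ((prRes R M p hp hk).add_extMk f g (m + 1) rfl _ _).symm
  map_smul' a f := by
    have key : f ≫ (a • 𝟙 (triv K L)) = a • f := by rw [Linear.comp_smul, Category.comp_id]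
    rw [RingHom.id_apply, Abelian.Ext.smul_eq_comp_mk₀]
    refine Eq.trans ?_ ((prRes R M p hp hk).extMk_comp_mk₀ f (m + 1) rfl (d_comp R m f)
      (a • 𝟙 (triv K L))).symm
    congr 1

lemma Θ_bijective (hp : Function.Surjective p) (hk : LinearMap.ker p = LI W) (m : ℕ) :
    Function.Bijective (Θ R M p hp hk (m + 1)) := by
  constructor
  · rw [← LinearMap.ker_eq_bot, Submodule.eq_bot_iff]
    intro f hf
    obtain ⟨g, hg⟩ := ((prRes R M p hp hk).extMk_eq_zero_iff f (m + 2) rfl
      (d_comp R (m + 1) f) m rfl).1 hf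
    rw [← hg]
    exact d_comp R m g
  · intro x
    obtain ⟨f, hf, h⟩ := (prRes R M p hp hk).extMk_surjective x (m + 2) rfl
    exact ⟨f, h⟩

open Classical in
/-- standard basis vectors -/
noncomputable def eb {m : ℕ} (i : R.X m) : R.X m → UniversalEnvelopingAlgebra K L :=
  fun j => if i = j then 1 else 0

/-- values on the basis -/
noncomputable def ev (m : ℕ) : ((cx R).X m ⟶ triv K L) →ₗ[K] (R.X m → K) where
  toFun f := fun i => ofT (f.hom (eb R i))
  map_add' f g := rfl
  map_smul' a f := by
    ext i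
    change ofT (algebraMap K (UniversalEnvelopingAlgebra K L) a • f.hom _) = a * ofT (f.hom _)
    rw [ofT_smul, AlgHom.commutes]
    rfl

/-- the linear map with given values on the basis -/
noncomputable def fl (m : ℕ) (φ : R.X m → K) : (R.X m → UniversalEnvelopingAlgebra K L)
    →ₗ[UniversalEnvelopingAlgebra K L] triv K L where
  toFun u := ∑ i, u i • toT (φ i)
  map_add' u v := by
    rw [← Finset.sum_add_distrib]
    exact Finset.sum_congr rfl fun i _ => add_smul _ _ _
  map_smul' a u := by
    rw [RingHom.id_apply, Finset.smul_sum]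
    exact Finset.sum_congr rfl fun i _ => by rw [Pi.smul_apply, smul_eq_mul, mul_smul]

lemma fl_eb (m : ℕ) (φ : R.X m → K) (i : R.X m) : ofT (fl R m φ (eb R i)) = φ i := by
  change ofT (∑ j, eb R i j • toT (φ j)) = φ i
  rw [ofT_sum, Finset.sum_eq_single i]
  · rw [ofT_smul, eb, if_pos rfl, map_one, one_mul]
    rfl
  · intro j _ hj
    rw [ofT_smul, eb, if_neg hj.symm, map_zero, zero_mul]
  · intro h
    exact absurd (Finset.mem_univ i) h

lemma fl_ext (m : ℕ) (g : (R.X m → UniversalEnvelopingAlgebra K L)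
    →ₗ[UniversalEnvelopingAlgebra K L] triv K L) (h : ∀ i, ofT (g (eb R i)) = 0) : g = 0 := by
  classical
  refine LinearMap.ext fun u => ?_
  rw [LinearMap.pi_apply_eq_sum_univ g u, LinearMap.zero_apply]
  refine Finset.sum_eq_zero fun j _ => ?_
  apply ofT_inj
  have h3 : (fun i => if j = i then (1 : UniversalEnvelopingAlgebra K L) else 0) = eb R j := by
    ext i
    rw [eb]
  rw [ofT_smul, h3, h j, mul_zero, ofT_zero]

lemma ev_bijective (m : ℕ) : Function.Bijective (ev R m) := by
  constructor
  · rw [← LinearMap.ker_eq_bot, Submodule.eq_bot_iff]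
    intro f hf
    apply ModuleCat.hom_ext
    exact fl_ext R m f.hom (fun i => congrFun hf i)
  · intro φ
    refine ⟨ModuleCat.ofHom (Y := (triv K L : Type)) (fl R m φ), ?_⟩
    ext i
    exact fl_eb R m φ i

/-- `Ext` and the resolution -/
noncomputable def extEquiv (hp : Function.Surjective p) (hk : LinearMap.ker p = LI W) (m : ℕ) :
    (R.X (m + 1) → K) ≃ₗ[K] Abelian.Ext.{0} M (triv K L) (m + 1) :=
  (LinearEquiv.ofBijective _ (ev_bijective R (m + 1))).symm.trans
    (LinearEquiv.ofBijective _ (Θ_bijective R M p hp hk m))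

lemma card_eq (hp : Function.Surjective p) (hk : LinearMap.ker p = LI W) (m : ℕ) :
    Fintype.card (R.X (m + 1)) =
      Module.finrank K (Abelian.Ext.{0} M (triv K L) (m + 1)) := by
  rw [← (extEquiv R M p hp hk m).finrank_eq, Module.finrank_fintype_fun_eq_card]

include R in
lemma ext_finite (hp : Function.Surjective p) (hk : LinearMap.ker p = LI W) (m : ℕ) :
    FiniteDimensional K (Abelian.Ext.{0} M (triv K L) (m + 1)) :=
  LinearEquiv.finiteDimensional (extEquiv R M p hp hk m)

/-- the number of generators does not depend on the resolution -/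
lemma card_unique (R R' : LinRes V W) (m : ℕ) :
    Fintype.card (R.X m) = Fintype.card (R'.X m) := by
  cases m with
  | zero => rw [Fintype.card_unique, Fintype.card_unique]
  | succ m =>
    have hp : Function.Surjective ((LI W).mkQ : UniversalEnvelopingAlgebra K L
      →ₗ[UniversalEnvelopingAlgebra K L] (UniversalEnvelopingAlgebra K L ⧸ LI W)) :=
      Submodule.mkQ_surjective _
    have hk : LinearMap.ker ((LI W).mkQ : UniversalEnvelopingAlgebra K L
      →ₗ[UniversalEnvelopingAlgebra K L] (UniversalEnvelopingAlgebra K L ⧸ LI W)) = LI W :=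
      Submodule.ker_mkQ _
    rw [card_eq R (ModuleCat.of _ (UniversalEnvelopingAlgebra K L ⧸ LI W)) (LI W).mkQ hp hk,
      card_eq R' (ModuleCat.of _ (UniversalEnvelopingAlgebra K L ⧸ LI W)) (LI W).mkQ hp hk]

end

end H89R3.BK
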