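import Pool.Agent.H89R3.BK.Num

/-!
# The trivial module and the final inequality
-/

set_option autoImplicit false

namespace H89R3.BK

variable {K : Type} [Field K] {L : Type} [LieRing L] [LieAlgebra K L]

/-- the augmentation as linear map to the trivial module -/
noncomputable def augl : UniversalEnvelopingAlgebra K L →ₗ[UniversalEnvelopingAlgebra K L]
    triv K L where
  toFun u := toT (aug K L u)
  map_add' u v := map_add (aug K L) u v
  map_smul' a u := by
    apply ofT_inj
    rw [RingHom.id_apply, ofT_smul, smul_eq_mul]
    exact map_mul (aug K L) a u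

lemma augl_surjective : Function.Surjective (augl : UniversalEnvelopingAlgebra K L →ₗ[_]
    triv K L) := by
  intro t
  exact ⟨algebraMap K _ (ofT t), AlgHom.commutes (aug K L) (ofT t)⟩

lemma mem_ker_augl {u : UniversalEnvelopingAlgebra K L} :
    u ∈ LinearMap.ker (augl : UniversalEnvelopingAlgebra K L →ₗ[_] triv K L) ↔
      aug K L u = 0 := Iff.rfl

lemma ker_augl (V : Submodule K L) (hV : LieSubalgebra.lieSpan K L (V : Set L) = ⊤) :
    LinearMap.ker (augl : UniversalEnvelopingAlgebra K L →ₗ[_] triv K L) = LI V := by
  apply le_antisymm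
  · let T : LieSubalgebra K L :=
      { carrier := {x | UniversalEnvelopingAlgebra.ι K x ∈ LI V}
        add_mem' := by
          intro a b ha hb
          change UniversalEnvelopingAlgebra.ι K (a + b) ∈ LI V
          rw [map_add]
          exact Submodule.add_mem _ ha hb
        zero_mem' := by
          change UniversalEnvelopingAlgebra.ι K 0 ∈ LI V
          rw [map_zero]
          exact Submodule.zero_mem _
        smul_mem' := by
          intro c a ha
          change UniversalEnvelopingAlgebra.ι K (c • a) ∈ LI V
          rw [map_smul, ← one_mul (UniversalEnvelopingAlgebra.ι K a), ← smul_mul_assoc]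
          exact mul_mem_LI ha _
        lie_mem' := by
          intro a b ha hb
          change UniversalEnvelopingAlgebra.ι K ⁅a, b⁆ ∈ LI V
          rw [← lie_ι]
          exact Submodule.sub_mem _ (mul_mem_LI hb _) (mul_mem_LI ha _) }
    have hT : ∀ x : L, UniversalEnvelopingAlgebra.ι K x ∈ LI V := by
      intro x
      have h1 : LieSubalgebra.lieSpan K L (V : Set L) ≤ T := by
        rw [LieSubalgebra.lieSpan_le]
        intro y hy
        exact ι_mem_LI hy
      rw [hV] at h1
      exact h1 (LieSubalgebra.mem_top x)
    let S : Subalgebra K (UniversalEnvelopingAlgebra K L) :=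
      { carrier := {u | ∃ t : K, u - algebraMap K _ t ∈ LI V}
        mul_mem' := by
          rintro a b ⟨s, hs⟩ ⟨t, ht⟩
          refine ⟨s * t, ?_⟩
          have e : a * b - algebraMap K (UniversalEnvelopingAlgebra K L) (s * t) =
              a * (b - algebraMap K _ t) + algebraMap K _ t * (a - algebraMap K _ s) := by
            rw [mul_sub, mul_sub, ← Algebra.commutes t a, map_mul,
              ← Algebra.commutes t (algebraMap K _ s)]
            abel
          rw [e]
          exact Submodule.add_mem _ (mul_mem_LI ht _) (mul_mem_LI hs _)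
        add_mem' := by
          rintro a b ⟨s, hs⟩ ⟨t, ht⟩
          refine ⟨s + t, ?_⟩
          rw [map_add, add_sub_add_comm]
          exact Submodule.add_mem _ hs ht
        algebraMap_mem' := by
          intro r
          exact ⟨r, by rw [sub_self]; exact Submodule.zero_mem _⟩ }
    have hS : S = ⊤ := subalgebra_eq_top S fun x => ⟨0, by
      rw [map_zero, sub_zero]; exact hT x⟩
    intro u hu
    rw [mem_ker_augl] at hu
    obtain ⟨t, ht⟩ : u ∈ S := by rw [hS]; trivial
    have h0 : ∀ z ∈ LI V, aug K L z = 0 := by
      intro z hz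
      induction hz using Submodule.span_induction with
      | mem z hz =>
        obtain ⟨x, _, rfl⟩ := hz
        exact aug_ι x
      | zero => exact map_zero _
      | add x y _ _ hx hy => rw [map_add, hx, hy, add_zero]
      | smul a x _ hx => rw [smul_eq_mul, map_mul, hx, mul_zero]
    have h1 := h0 _ ht
    rw [map_sub, hu, AlgHom.commutes, zero_sub, neg_eq_zero] at h1
    have h2 : t = 0 := h1
    rw [h2, map_zero, sub_zero] at ht
    exact ht
  · intro z hz
    rw [mem_ker_augl]
    induction hz using Submodule.span_induction with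
    | mem z hz =>
      obtain ⟨x, _, rfl⟩ := hz
      exact aug_ι x
    | zero => exact map_zero _
    | add x y _ _ hx hy => rw [map_add, hx, hy, add_zero]
    | smul a x _ hx => rw [smul_eq_mul, map_mul, hx, mul_zero]

variable {ℳ : ℕ → Submodule K L} (h : IsBlochKato K ℳ)

include h

lemma betti_eq (m : ℕ) : betti K L (m + 1) = xn (ℳ 1) (ℳ 1) (m + 1) := by
  obtain ⟨R⟩ := exists_res h _ (ℳ 1) le_rfl rfl
  rw [xn_eq R, card_eq R (triv K L) augl augl_surjective (ker_augl _ h.standard)]
  rfl

lemma coh_finite (m : ℕ) : FiniteDimensional K (Coh K L (m + 1)) := by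
  obtain ⟨R⟩ := exists_res h _ (ℳ 1) le_rfl rfl
  exact ext_finite R (triv K L) augl augl_surjective (ker_augl _ h.standard) m

/-- **The inequality.** -/
theorem inequality (n : ℕ) (hn : HasCd K L n) :
    0 ≤ ((n : ℤ) - 1) * (betti K L 1 : ℤ) ^ 2 - 2 * (n : ℤ) * (betti K L 2 : ℤ) := by
  have h1 := main_ineq h n (ℳ 1) le_rfl (by
    intro m hm
    obtain ⟨m, rfl⟩ : ∃ k, m = k + 1 := ⟨m - 1, by omega⟩
    rw [← betti_eq h]
    have h2 : ¬ Nontrivial (Coh K L (m + 1)) := by
      intro hnt
      exact absurd (hn.2 hnt) (not_le.2 hm)
    rw [not_nontrivial_iff_subsingleton] at h2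
    exact Module.finrank_zero_of_subsingleton)
  rw [← betti_eq h, ← xn_one h le_rfl, ← betti_eq h] at h1
  linarith

end H89R3.BK
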