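import Pool.Agent.H89R3.BK.Key

/-!
# The grading of the enveloping algebra
-/

set_option autoImplicit false

namespace H89R3.BK

open Polynomial

variable {K : Type} [Field K] {L : Type} [LieRing L] [LieAlgebra K L]

/-- `ι` as a linear map -/
noncomputable def ιl : L →ₗ[K] UniversalEnvelopingAlgebra K L where
  toFun x := UniversalEnvelopingAlgebra.ι K x
  map_add' x y := map_add _ x y
  map_smul' a x := map_smul _ a x

/-- the linear elements of the enveloping algebra -/
noncomputable def S1 (V : Submodule K L) : Submodule K (UniversalEnvelopingAlgebra K L) :=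
  V.map (ιl : L →ₗ[K] UniversalEnvelopingAlgebra K L)

lemma mem_S1 {V : Submodule K L} {s : UniversalEnvelopingAlgebra K L} :
    s ∈ S1 V ↔ ∃ x ∈ V, UniversalEnvelopingAlgebra.ι K x = s := Iff.rfl

variable {ℳ : ℕ → Submodule K L}

/-- the graded version of `ι` -/
lemma exists_gr (h : IsLieGrading K ℳ) : ∃ f : L →ₗ[K] (UniversalEnvelopingAlgebra K L)[X],
    ∀ i, ∀ x ∈ ℳ i, f x = monomial i (UniversalEnvelopingAlgebra.ι K x) := by
  classical
  let e : (DirectSum ℕ fun i => ℳ i) ≃ₗ[K] L :=
    LinearEquiv.ofBijective (DirectSum.coeLinearMap ℳ) h.internal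
  let g : (DirectSum ℕ fun i => ℳ i) →ₗ[K] (UniversalEnvelopingAlgebra K L)[X] :=
    DirectSum.toModule K ℕ _ fun i =>
      ((monomial i : UniversalEnvelopingAlgebra K L →ₗ[UniversalEnvelopingAlgebra K L]
        (UniversalEnvelopingAlgebra K L)[X]).restrictScalars K).comp
        ((ιl : L →ₗ[K] UniversalEnvelopingAlgebra K L).comp (ℳ i).subtype)
  refine ⟨g.comp e.symm.toLinearMap, ?_⟩
  intro i x hx
  have h1 : e.symm x = DirectSum.lof K ℕ (fun i => ℳ i) i ⟨x, hx⟩ := by
    rw [LinearEquiv.symm_apply_eq]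
    change x = DirectSum.coeLinearMap ℳ _
    rw [DirectSum.coeLinearMap_lof]
  rw [LinearMap.comp_apply, LinearEquiv.coe_coe, h1, DirectSum.toModule_lof]
  rfl

lemma grading_induction (h : IsLieGrading K ℳ) {p : L → Prop}
    (hmem : ∀ i, ∀ x ∈ ℳ i, p x) (h0 : p 0) (hadd : ∀ x y, p x → p y → p (x + y)) (x : L) :
    p x := by
  classical
  have h1 : x ∈ ⨆ i, ℳ i := by
    rw [h.internal.submodule_iSup_eq_top]; trivial
  exact Submodule.iSup_induction ℳ (motive := p) h1 hmem h0 hadd

/-- the graded version of the identity -/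
lemma exists_psi (h : IsLieGrading K ℳ) :
    ∃ ψ : UniversalEnvelopingAlgebra K L →ₐ[K] (UniversalEnvelopingAlgebra K L)[X],
    ∀ i, ∀ x ∈ ℳ i, ψ (UniversalEnvelopingAlgebra.ι K x) =
      monomial i (UniversalEnvelopingAlgebra.ι K x) := by
  obtain ⟨f, hf⟩ := exists_gr h
  have hlie : ∀ x y, f ⁅x, y⁆ = f x * f y - f y * f x := by
    intro x y
    revert y
    refine grading_induction h (p := fun x => ∀ y, f ⁅x, y⁆ = f x * f y - f y * f x) ?_ ?_ ?_ x
    · intro i x hx y
      refine grading_induction h (p := fun y => f ⁅x, y⁆ = f x * f y - f y * f x) ?_ ?_ ?_ y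
      · intro j y hy
        rw [hf _ _ (h.lie_mem i j x hx y hy), hf _ _ hx, hf _ _ hy, monomial_mul_monomial,
          monomial_mul_monomial, add_comm j i, ← map_sub, lie_ι]
      · simp
      · intro y z hy hz
        rw [lie_add, map_add, hy, hz, map_add, mul_add, add_mul]
        abel
    · intro y
      simp
    · intro x z hx hz y
      rw [add_lie, map_add, hx, hz, map_add, mul_add, add_mul]
      abel
  let _ : LieRing (UniversalEnvelopingAlgebra K L)[X] := LieRing.ofAssociativeRing
  let f' : L →ₗ⁅K⁆ (UniversalEnvelopingAlgebra K L)[X] :=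
    { f with
      map_lie' := by
        intro x y
        rw [LieRing.of_associative_ring_bracket]
        exact hlie x y }
  refine ⟨UniversalEnvelopingAlgebra.lift K f', ?_⟩
  intro i x hx
  rw [← hf i x hx]
  exact UniversalEnvelopingAlgebra.lift_ι_apply K f' x

lemma subalgebra_eq_top (S : Subalgebra K (UniversalEnvelopingAlgebra K L))
    (h : ∀ x : L, UniversalEnvelopingAlgebra.ι K x ∈ S) : S = ⊤ := by
  rw [eq_top_iff, ← H67OL.DOMaux.adjoin_top (Module.Basis.ofVectorSpace K L)]
  exact Algebra.adjoin_le (by rintro _ ⟨i, rfl⟩; exact h _)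

/-- The projections to the components of degree one and two. -/
lemma exists_proj (h : IsLieGrading K ℳ) :
    ∃ π1 π2 : UniversalEnvelopingAlgebra K L →ₗ[K] UniversalEnvelopingAlgebra K L,
      (∀ u, π1 u ∈ S1 (ℳ 1)) ∧ (∀ s ∈ S1 (ℳ 1), π1 s = s) ∧
      ∀ u, ∀ s ∈ S1 (ℳ 1), π2 (u * s) = π1 u * s := by
  obtain ⟨ψ, hψ⟩ := exists_psi h
  let π : ℕ → UniversalEnvelopingAlgebra K L →ₗ[K] UniversalEnvelopingAlgebra K L := fun j =>
    ((lcoeff (UniversalEnvelopingAlgebra K L) j).restrictScalars K).comp ψ.toLinearMap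
  have hπ : ∀ j u, π j u = (ψ u).coeff j := fun j u => rfl
  refine ⟨π 1, π 2, ?_, ?_, ?_⟩
  · let S : Subalgebra K (UniversalEnvelopingAlgebra K L) :=
      { carrier := {u | (∃ t : K, (ψ u).coeff 0 = algebraMap K _ t) ∧ (ψ u).coeff 1 ∈ S1 (ℳ 1)}
        mul_mem' := by
          rintro a b ⟨⟨s, hs⟩, ha⟩ ⟨⟨t, ht⟩, hb⟩
          refine ⟨⟨s * t, by rw [map_mul, mul_coeff_zero, hs, ht, map_mul]⟩, ?_⟩
          rw [map_mul, mul_coeff_one, hs, ht, ← Algebra.smul_def, ← Algebra.commutes,
            ← Algebra.smul_def]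
          exact Submodule.add_mem _ (Submodule.smul_mem _ _ hb) (Submodule.smul_mem _ _ ha)
        add_mem' := by
          rintro a b ⟨⟨s, hs⟩, ha⟩ ⟨⟨t, ht⟩, hb⟩
          refine ⟨⟨s + t, by rw [map_add, coeff_add, hs, ht, map_add]⟩, ?_⟩
          rw [map_add, coeff_add]
          exact Submodule.add_mem _ ha hb
        algebraMap_mem' := by
          intro r
          have h1 : ψ (algebraMap K _ r) = Polynomial.C (algebraMap K _ r) := by
            rw [AlgHom.commutes]; rfl
          refine ⟨⟨r, by rw [h1, coeff_C_zero]⟩, ?_⟩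
          rw [h1, coeff_C_of_ne_zero one_ne_zero]
          exact Submodule.zero_mem _ }
    have hS : S = ⊤ := by
      refine subalgebra_eq_top S ?_
      intro x
      refine grading_induction h (p := fun x => UniversalEnvelopingAlgebra.ι K x ∈ S) ?_ ?_ ?_ x
      · intro i x hx
        by_cases hi : i = 0
        · subst hi
          rw [h.zero_eq, Submodule.mem_bot] at hx
          rw [hx, map_zero]
          exact S.zero_mem
        · refine ⟨⟨0, ?_⟩, ?_⟩
          · rw [hψ i x hx, coeff_monomial, if_neg hi, map_zero]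
          · rw [hψ i x hx, coeff_monomial]
            split_ifs with h1
            · subst h1
              exact ⟨x, hx, rfl⟩
            · exact Submodule.zero_mem _
      · rw [map_zero]; exact S.zero_mem
      · intro x y hx hy
        rw [map_add]
        exact S.add_mem hx hy
    intro u
    have : u ∈ S := by rw [hS]; trivial
    exact this.2
  · intro s hs
    obtain ⟨x, hx, rfl⟩ := mem_S1.1 hs
    change (ψ (UniversalEnvelopingAlgebra.ι K x)).coeff 1 = UniversalEnvelopingAlgebra.ι K x
    rw [hψ 1 x hx, coeff_monomial, if_pos rfl]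
  · intro u s hs
    obtain ⟨x, hx, rfl⟩ := mem_S1.1 hs
    change (ψ (u * UniversalEnvelopingAlgebra.ι K x)).coeff 2 =
      (ψ u).coeff 1 * UniversalEnvelopingAlgebra.ι K x
    rw [map_mul, hψ 1 x hx]
    exact coeff_mul_monomial _ _ _ _

end H89R3.BK
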