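import Pool.Agent.H89R3.BK.Quad

/-!
# The key exactness
-/

set_option autoImplicit false

namespace H89R3.BK

variable {K : Type} [Field K] {L : Type} [LieRing L] [LieAlgebra K L]

/-- left ideal generated by a subspace -/
noncomputable def LI (W : Submodule K L) :
    Submodule (UniversalEnvelopingAlgebra K L) (UniversalEnvelopingAlgebra K L) :=
  Submodule.span _ (UniversalEnvelopingAlgebra.ι K '' (W : Set L))

/-- span of the brackets -/
def BB (W : Submodule K L) : Submodule K L :=
  Submodule.span K {z | ∃ a ∈ W, ∃ b ∈ W, z = ⁅a, b⁆}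

/-- elements `w` of `W` with `⁅v, w⁆` in the span of the brackets of elements of `W` -/
def NN (W : Submodule K L) (v : L) : Submodule K L where
  carrier := {w | w ∈ W ∧ ⁅v, w⁆ ∈ BB W}
  add_mem' := by
    rintro a b ⟨ha, ha'⟩ ⟨hb, hb'⟩
    exact ⟨W.add_mem ha hb, by rw [lie_add]; exact Submodule.add_mem _ ha' hb'⟩
  zero_mem' := ⟨W.zero_mem, by rw [lie_zero]; exact Submodule.zero_mem _⟩
  smul_mem' := by
    rintro c a ⟨ha, ha'⟩
    exact ⟨W.smul_mem c ha, by rw [lie_smul]; exact Submodule.smul_mem _ _ ha'⟩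

lemma NN_le (W : Submodule K L) (v : L) : NN W v ≤ W := fun _ h => h.1

lemma BB_mono {W W' : Submodule K L} (h : W ≤ W') : BB W ≤ BB W' :=
  Submodule.span_mono (by rintro _ ⟨a, ha, b, hb, rfl⟩; exact ⟨a, h ha, b, h hb, rfl⟩)

lemma ι_mem_LI {W : Submodule K L} {x : L} (h : x ∈ W) :
    UniversalEnvelopingAlgebra.ι K x ∈ LI W := Submodule.subset_span ⟨x, h, rfl⟩

lemma mul_mem_LI {W : Submodule K L} {x : UniversalEnvelopingAlgebra K L} (h : x ∈ LI W)
    (u : UniversalEnvelopingAlgebra K L) : u * x ∈ LI W := Submodule.smul_mem _ u h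

lemma LI_mono {W W' : Submodule K L} (h : W ≤ W') : LI W ≤ LI W' :=
  Submodule.span_mono (Set.image_mono h)

lemma BB_LI (W : Submodule K L) {x : L} (h : x ∈ BB W) :
    UniversalEnvelopingAlgebra.ι K x ∈ LI W := by
  induction h using Submodule.span_induction with
  | mem x hx =>
    obtain ⟨a, ha, b, hb, rfl⟩ := hx
    rw [← lie_ι]
    exact Submodule.sub_mem _ (mul_mem_LI (ι_mem_LI hb) _) (mul_mem_LI (ι_mem_LI ha) _)
  | zero => simp
  | add x y _ _ hx hy => rw [map_add]; exact Submodule.add_mem _ hx hy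
  | smul a x _ hx =>
    rw [map_smul, ← one_mul (UniversalEnvelopingAlgebra.ι K x), ← smul_mul_assoc]
    exact mul_mem_LI hx _

/-- the easy inclusion -/
lemma easy_exact (W : Submodule K L) (v : L) {u : UniversalEnvelopingAlgebra K L}
    (hu : u ∈ LI (NN W v)) : u * UniversalEnvelopingAlgebra.ι K v ∈ LI W := by
  induction hu using Submodule.span_induction with
  | mem x hx =>
    obtain ⟨n, ⟨hn, hn'⟩, rfl⟩ := hx
    have h := lie_ι (K := K) v n
    have h2 : UniversalEnvelopingAlgebra.ι K n * UniversalEnvelopingAlgebra.ι K v =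
        UniversalEnvelopingAlgebra.ι K v * UniversalEnvelopingAlgebra.ι K n -
        UniversalEnvelopingAlgebra.ι K ⁅v, n⁆ := by
      rw [← h]; abel
    rw [h2]
    exact Submodule.sub_mem _ (mul_mem_LI (ι_mem_LI hn) _) (BB_LI W hn')
  | zero => simp
  | add x y _ _ hx hy => rw [add_mul]; exact Submodule.add_mem _ hx hy
  | smul a x _ hx =>
    rw [smul_eq_mul, mul_assoc]
    exact mul_mem_LI hx _

/-- **The key exactness.** -/
lemma key_exact (W : Submodule K L) (v : L) (hv : v ∉ W)
    (hq : QuadraticOn K (W ⊔ K ∙ v)) {u : UniversalEnvelopingAlgebra K L}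
    (hu : u * UniversalEnvelopingAlgebra.ι K v ∈ LI W) : u ∈ LI (NN W v) := by
  classical
  obtain ⟨d, w, hk⟩ := hq
  obtain ⟨α, hα, hαv⟩ : ∃ α : L →ₗ[K] K, (∀ x ∈ W, α x = 0) ∧ α v = 1 := by
    obtain ⟨f, hf, hf'⟩ := Submodule.exists_dual_map_eq_bot_of_notMem (p := W) hv inferInstance
    refine ⟨(f v)⁻¹ • f, ?_, ?_⟩
    · intro x hx
      have : f x = 0 := by
        have h1 : f x ∈ Submodule.map f W := Submodule.mem_map_of_mem hx
        rw [hf'] at h1
        exact (Submodule.mem_bot K).1 h1
      rw [LinearMap.smul_apply, this, smul_zero]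
    · rw [LinearMap.smul_apply, smul_eq_mul, inv_mul_cancel₀ hf]
  have hdec : ∀ x ∈ W ⊔ K ∙ v, x - α x • v ∈ W := by
    intro x hx
    obtain ⟨a, ha, c, hc, rfl⟩ := Submodule.mem_sup.1 hx
    obtain ⟨t, rfl⟩ := Submodule.mem_span_singleton.1 hc
    rw [map_add, hα a ha, map_smul, hαv, zero_add, smul_eq_mul, mul_one, add_sub_cancel_right]
    exact ha
  set N := NN W v with hN
  set E := UniversalEnvelopingAlgebra K L ⧸ LI N with hE
  let e1 : E := Submodule.Quotient.mk 1
  have he1 : ∀ u : UniversalEnvelopingAlgebra K L, u • e1 = Submodule.Quotient.mk u := by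
    intro u
    change u • (Submodule.Quotient.mk 1 : E) = _
    rw [← Submodule.Quotient.mk_smul, smul_eq_mul, mul_one]
  obtain ⟨c, hc, hce⟩ := exists_cocycle (E := E) (fun i => (w i : L)) hk.le
    (fun i => α (w i) • e1) (by
      intro r hr
      set a : Fin d → L := fun i => (w i : L) - α (w i) • v with ha
      have haW : ∀ i, a i ∈ W := fun i => hdec _ (w i).2
      have hwa : ∀ i, (w i : L) = a i + α (w i) • v := fun i => by rw [ha]; simp
      set n : L := ∑ p, r p • (α (w p.2) • a p.1 - α (w p.1) • a p.2) with hn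
      have hnW : n ∈ W := Submodule.sum_mem _ fun p _ => Submodule.smul_mem _ _
        (Submodule.sub_mem _ (Submodule.smul_mem _ _ (haW _)) (Submodule.smul_mem _ _ (haW _)))
      have hvn : ⁅v, n⁆ = ∑ p, r p • ⁅a p.1, a p.2⁆ := by
        rw [← sub_eq_zero, ← neg_eq_zero, neg_sub, ← hr, hn, lie_sum, ← Finset.sum_sub_distrib]
        refine Finset.sum_congr rfl fun p _ => ?_
        rw [lie_smul, ← smul_sub]
        congr 1
        rw [hwa p.1, hwa p.2]
        simp only [map_add, map_smul, hα _ (haW _), hαv, zero_add, smul_eq_mul, mul_one,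
          lie_add, add_lie, lie_smul, smul_lie, lie_sub, lie_self, smul_zero, add_zero]
        rw [← lie_skew v (a p.1)]
        simp only [smul_neg]
        abel
      have hnN : n ∈ N := ⟨hnW, by
        rw [hvn]
        exact Submodule.sum_mem _ fun p _ => Submodule.smul_mem _ _
          (Submodule.subset_span ⟨_, haW _, _, haW _, rfl⟩)⟩
      have h1 : (∑ p : Fin d × Fin d, r p • (UniversalEnvelopingAlgebra.ι K (w p.1 : L) • (α (w p.2) • e1) -
          UniversalEnvelopingAlgebra.ι K (w p.2 : L) • (α (w p.1) • e1))) =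
          Submodule.Quotient.mk (UniversalEnvelopingAlgebra.ι K n) := by
        have h2 : n = ∑ p, r p • (α (w p.2) • (w p.1 : L) - α (w p.1) • (w p.2 : L)) := by
          rw [hn]
          refine Finset.sum_congr rfl fun p _ => ?_
          congr 1
          rw [ha]
          simp only [smul_sub]
          rw [smul_comm (α (w p.2 : L)) (α (w p.1 : L)) v]
          abel
        rw [h2, map_sum, ← he1, Finset.sum_smul]
        refine Finset.sum_congr rfl fun p _ => ?_
        rw [map_smul, map_sub, map_smul, map_smul, smul_assoc, sub_smul, smul_assoc, smul_assoc,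
          smul_comm (UniversalEnvelopingAlgebra.ι K (w p.1 : L)),
          smul_comm (UniversalEnvelopingAlgebra.ι K (w p.2 : L))]
      rw [h1, Submodule.Quotient.mk_eq_zero]
      exact ι_mem_LI hnN)
  obtain ⟨θ, hθ⟩ := exists_theta' _ c hc
  have hW : ∀ x ∈ W ⊔ K ∙ v, ∃ hx : x ∈ (FreeLieAlgebra.lift K (fun i => (w i : L))).range,
      c ⟨x, hx⟩ = α x • e1 := by
    intro x hx
    have h1 : (⟨x, hx⟩ : ↥(W ⊔ K ∙ v)) ∈ Submodule.span K (Set.range w) := by
      rw [w.span_eq]; trivial
    have h2 : ∀ y ∈ Submodule.span K (Set.range w),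
        ∃ hy : (y : L) ∈ (FreeLieAlgebra.lift K (fun i => (w i : L))).range,
          c ⟨y, hy⟩ = α y • e1 := by
      intro y hy
      induction hy using Submodule.span_induction with
      | mem y hy =>
        obtain ⟨i, rfl⟩ := hy
        exact ⟨⟨FreeLieAlgebra.of K i, FreeLieAlgebra.lift_of_apply _ _⟩, hce i _ rfl⟩
      | zero => exact ⟨Submodule.zero_mem _, by
          change c 0 = α (0 : L) • e1
          rw [map_zero, map_zero, zero_smul]⟩
      | add y z _ _ hy hz =>
        obtain ⟨hy, hy'⟩ := hy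
        obtain ⟨hz, hz'⟩ := hz
        refine ⟨add_mem hy hz, ?_⟩
        change c (⟨y, hy⟩ + ⟨z, hz⟩) = α ((y : L) + (z : L)) • e1
        rw [map_add, map_add, add_smul, ← hy', ← hz']
      | smul t y _ hy =>
        obtain ⟨hy, hy'⟩ := hy
        refine ⟨Submodule.smul_mem
          (FreeLieAlgebra.lift K (fun i => (w i : L))).range.toSubmodule t hy, ?_⟩
        change c (t • ⟨y, hy⟩) = α (t • (y : L)) • e1
        rw [map_smul, map_smul, smul_assoc, ← hy']
    exact h2 _ h1
  have hθW : ∀ x ∈ LI W, ∀ u, θ (u * x) = 0 := by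
    intro x hx
    induction hx using Submodule.span_induction with
    | mem x hx =>
      obtain ⟨a, ha, rfl⟩ := hx
      intro u
      obtain ⟨h1, h2⟩ := hW a (Submodule.mem_sup_left ha)
      rw [hα a ha, zero_smul] at h2
      have := hθ u ⟨a, h1⟩
      rw [h2, smul_zero] at this
      exact this
    | zero => simp
    | add x y _ _ hx hy => intro u; rw [mul_add, map_add, hx, hy, add_zero]
    | smul a x _ hx => intro u; rw [smul_eq_mul, ← mul_assoc, hx]
  have h1 := hθW _ hu 1
  obtain ⟨h2, h3⟩ := hW v (Submodule.mem_sup_right (Submodule.mem_span_singleton_self v))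
  have h4 := hθ u ⟨v, h2⟩
  rw [h3, hαv, one_smul, he1] at h4
  rw [one_mul] at h1
  have h5 : (Submodule.Quotient.mk u : E) = 0 := h4.symm.trans h1
  exact (Submodule.Quotient.mk_eq_zero _).1 h5

end H89R3.BK
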