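import Pool.Agent.H89R3.BK.Ext

/-!
# The inequality
-/

set_option autoImplicit false

namespace H89R3.BK

variable {K : Type} [Field K] {L : Type} [LieRing L] [LieAlgebra K L]

open Classical in
/-- the ranks of the modules in a linear resolution -/
noncomputable def xn (V W : Submodule K L) (m : ℕ) : ℕ :=
  if h : Nonempty (LinRes V W) then Fintype.card ((Classical.choice h).X m) else 0

lemma xn_eq {V W : Submodule K L} (R : LinRes V W) (m : ℕ) :
    xn V W m = Fintype.card (R.X m) := by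
  rw [xn, dif_pos ⟨R⟩]
  exact card_unique _ _ _

lemma finrank_sup_span {W : Submodule K L} [FiniteDimensional K W] {v : L} (hv : v ∉ W) :
    Module.finrank K ↥(W ⊔ K ∙ v) = Module.finrank K W + 1 := by
  have h1 := Submodule.finrank_sup_add_finrank_inf_eq W (K ∙ v)
  have hv0 : v ≠ 0 := by
    rintro rfl
    exact hv W.zero_mem
  have h2 : W ⊓ K ∙ v = ⊥ := by
    rw [Submodule.eq_bot_iff]
    rintro x ⟨hx, hx'⟩
    obtain ⟨t, rfl⟩ := Submodule.mem_span_singleton.1 hx'
    by_cases ht : t = 0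
    · rw [ht, zero_smul]
    · exact absurd ((W.smul_mem_iff ht).1 hx) hv
  rw [h2, finrank_bot, finrank_span_singleton hv0, add_zero] at h1
  exact h1

variable {ℳ : ℕ → Submodule K L} (h : IsBlochKato K ℳ)

include h

lemma fin_of_le {W : Submodule K L} (hW : W ≤ ℳ 1) : FiniteDimensional K W := by
  have := h.finite 1
  exact Submodule.finiteDimensional_of_le hW

lemma cone' {W : Submodule K L} (hW : W ≤ ℳ 1) {v : L} (hv : v ∈ ℳ 1) (hvW : v ∉ W)
    (RY : LinRes (ℳ 1) W) (RX : LinRes (ℳ 1) (NN W v)) :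
    ∃ R : LinRes (ℳ 1) (W ⊔ K ∙ v), ∀ m, Fintype.card (R.X (m + 1)) =
      Fintype.card (RY.X (m + 1)) + Fintype.card (RX.X m) := by
  obtain ⟨π1, π2, h1, h2, h3⟩ := exists_proj h.toIsLieGrading
  refine exists_cone h1 h2 h3 hv ?_
  intro u
  refine ⟨easy_exact W v, key_exact W v hvW (h.quadratic _ (sup_le hW ?_))⟩
  rw [Submodule.span_singleton_le_iff_mem]
  exact hv

lemma exists_res : ∀ (n : ℕ) (W : Submodule K L), W ≤ ℳ 1 → Module.finrank K W = n →
    Nonempty (LinRes (ℳ 1) W) := by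
  intro n
  induction n using Nat.strong_induction_on with
  | _ n ih =>
    intro W hW hn
    by_cases hb : W = ⊥
    · rw [hb]
      exact ⟨botRes _⟩
    · obtain ⟨v, hv, hv0⟩ := Submodule.exists_mem_ne_zero_of_ne_bot hb
      obtain ⟨C, hC⟩ := Submodule.exists_isCompl (K ∙ v)
      have hvC : v ∉ W ⊓ C := by
        rintro ⟨-, hvC⟩
        have : v ∈ (K ∙ v) ⊓ C := ⟨Submodule.mem_span_singleton_self v, hvC⟩
        rw [hC.inf_eq_bot] at this
        exact hv0 ((Submodule.mem_bot K).1 this)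
      have hvW : K ∙ v ≤ W := by
        rw [Submodule.span_singleton_le_iff_mem]
        exact hv
      have hsup : (W ⊓ C) ⊔ K ∙ v = W := by
        rw [inf_sup_assoc_of_le _ hvW, sup_comm, hC.sup_eq_top, inf_top_eq]
      have hle : W ⊓ C ≤ W := inf_le_left
      have hle1 : W ⊓ C ≤ ℳ 1 := hle.trans hW
      have := fin_of_le h hle1
      have hr := finrank_sup_span hvC
      rw [hsup, hn] at hr
      obtain ⟨RY⟩ := ih (Module.finrank K ↥(W ⊓ C)) (by omega) _ hle1 rfl
      have hN : Module.finrank K ↥(NN (W ⊓ C) v) ≤ Module.finrank K ↥(W ⊓ C) :=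
        Submodule.finrank_mono (NN_le _ _)
      obtain ⟨RX⟩ := ih (Module.finrank K ↥(NN (W ⊓ C) v)) (by omega) _
        ((NN_le _ _).trans hle1) rfl
      obtain ⟨R, -⟩ := cone' h hle1 (hW hv) hvC RY RX
      rw [← hsup]
      exact ⟨R⟩

lemma xn_zero {W : Submodule K L} (hW : W ≤ ℳ 1) : xn (ℳ 1) W 0 = 1 := by
  obtain ⟨R⟩ := exists_res h _ W hW rfl
  rw [xn_eq R, Fintype.card_unique]

/-- **The recursion.** -/
lemma xn_succ {W : Submodule K L} (hW : W ≤ ℳ 1) {v : L} (hv : v ∈ ℳ 1) (hvW : v ∉ W) (m : ℕ) :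
    xn (ℳ 1) (W ⊔ K ∙ v) (m + 1) = xn (ℳ 1) W (m + 1) + xn (ℳ 1) (NN W v) m := by
  obtain ⟨RY⟩ := exists_res h _ W hW rfl
  obtain ⟨RX⟩ := exists_res h _ (NN W v) ((NN_le _ _).trans hW) rfl
  obtain ⟨R, hR⟩ := cone' h hW hv hvW RY RX
  rw [xn_eq R, xn_eq RY, xn_eq RX, hR]

omit h in
lemma xn_bot (m : ℕ) : xn (ℳ 1) (⊥ : Submodule K L) (m + 1) = 0 := by
  rw [xn_eq (botRes _)]
  exact Fintype.card_eq_zero (α := botX (m + 1))

/-- going from `A` to `W` one dimension at a time -/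
lemma flag_induction {W : Submodule K L} (hW : W ≤ ℳ 1) {p : ℕ → Submodule K L → Prop}
    (h0 : p 0 W) (hs : ∀ k, ∀ A ≤ W, ∀ v ∈ W, v ∉ A → p k (A ⊔ K ∙ v) → p (k + 1) A) :
    ∀ k, ∀ A ≤ W, Module.finrank K A + k = Module.finrank K W → p k A := by
  have hfW := fin_of_le h hW
  intro k
  induction k with
  | zero =>
    intro A hA hk
    have : A = W := Submodule.eq_of_le_of_finrank_eq hA hk
    rw [this]
    exact h0
  | succ k ih =>
    intro A hA hk
    have hfA := fin_of_le h (hA.trans hW)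
    obtain ⟨v, hv, hvA⟩ : ∃ v ∈ W, v ∉ A := by
      by_contra hcon
      push Not at hcon
      have : A = W := le_antisymm hA hcon
      rw [this] at hk
      omega
    refine hs k A hA v hv hvA (ih _ (sup_le hA ?_) ?_)
    · rw [Submodule.span_singleton_le_iff_mem]
      exact hv
    · rw [finrank_sup_span hvA]
      omega

lemma exists_add {W A : Submodule K L} (hW : W ≤ ℳ 1) (hA : A ≤ W) :
    ∃ k, Module.finrank K A + k = Module.finrank K W := by
  have hfW := fin_of_le h hW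
  exact Nat.exists_eq_add_of_le (Submodule.finrank_mono hA) |>.imp fun k hk => hk.symm

lemma xn_one {W : Submodule K L} (hW : W ≤ ℳ 1) : xn (ℳ 1) W 1 = Module.finrank K W := by
  have key := flag_induction h hW (p := fun k A => xn (ℳ 1) W 1 = xn (ℳ 1) A 1 + k)
    rfl (by
      intro k A hA v hv hvA hk
      rw [hk, xn_succ h (hA.trans hW) (hW hv) hvA, xn_zero h ((NN_le _ _).trans (hA.trans hW))]
      ring)
  obtain ⟨k, hk⟩ := exists_add h hW (bot_le (a := W))
  have h1 := key k ⊥ bot_le hk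
  rw [h1, xn_bot, ← hk, finrank_bot]

lemma xn_mono {W A : Submodule K L} (hW : W ≤ ℳ 1) (hA : A ≤ W) (m : ℕ) :
    xn (ℳ 1) A (m + 1) ≤ xn (ℳ 1) W (m + 1) := by
  have key := flag_induction h hW (p := fun k A => xn (ℳ 1) A (m + 1) ≤ xn (ℳ 1) W (m + 1))
    le_rfl (by
      intro k A hA v hv hvA hk
      rw [xn_succ h (hA.trans hW) (hW hv) hvA] at hk
      omega)
  obtain ⟨k, hk⟩ := exists_add h hW hA
  exact key k A hA hk

lemma xn_two_le {W A : Submodule K L} (hW : W ≤ ℳ 1) (hA : A ≤ W) {r : ℕ}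
    (hr : ∀ B ≤ W, ∀ v ∈ W, v ∉ B → Module.finrank K ↥(NN B v) ≤ r) :
    xn (ℳ 1) W 2 ≤ xn (ℳ 1) A 2 + (Module.finrank K W - Module.finrank K A) * r := by
  have key := flag_induction h hW (p := fun k A => xn (ℳ 1) W 2 ≤ xn (ℳ 1) A 2 + k * r)
    (by simp) (by
      intro k A hA v hv hvA hk
      rw [xn_succ h (hA.trans hW) (hW hv) hvA, xn_one h ((NN_le _ _).trans (hA.trans hW))] at hk
      have hk' : xn (ℳ 1) W 2 ≤ xn (ℳ 1) A 2 + Module.finrank K ↥(NN A v) + k * r := hk
      have := hr A hA v hv hvA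
      rw [add_mul, one_mul]
      omega)
  obtain ⟨k, hk⟩ := exists_add h hW hA
  have h1 := key k A hA hk
  have h2 : Module.finrank K W - Module.finrank K A = k := by omega
  rw [h2]
  exact h1

/-- **The inequality for all standard subalgebras.** -/
lemma main_ineq : ∀ (n : ℕ) (W : Submodule K L), W ≤ ℳ 1 →
    (∀ m, n < m → xn (ℳ 1) W m = 0) →
    2 * (n : ℤ) * xn (ℳ 1) W 2 ≤ ((n : ℤ) - 1) * (Module.finrank K W : ℤ) ^ 2 := by
  intro n
  induction n with
  | zero =>
    intro W hW hn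
    have h1 := hn 1 (by norm_num)
    rw [xn_one h hW] at h1
    rw [h1, hn 2 (by norm_num)]
    norm_num
  | succ n ih =>
    intro W hW hn
    by_cases hn0 : n = 0
    · subst hn0
      rw [hn 2 (by norm_num)]
      norm_num
    by_cases hb : W = ⊥
    · rw [hb, xn_bot, finrank_bot]
      norm_num
    have hfW := fin_of_le h hW
    let S : Set ℕ := {r | ∃ B ≤ W, ∃ v ∈ W, v ∉ B ∧ Module.finrank K ↥(NN B v) = r}
    have hSb : BddAbove S := by
      refine ⟨Module.finrank K W, ?_⟩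
      rintro r ⟨B, hB, v, hv, hvB, rfl⟩
      exact Submodule.finrank_mono ((NN_le _ _).trans hB)
    have hSn : S.Nonempty := by
      obtain ⟨v, hv, hv0⟩ := Submodule.exists_mem_ne_zero_of_ne_bot hb
      exact ⟨_, ⊥, bot_le, v, hv, by rwa [Submodule.mem_bot], rfl⟩
    obtain ⟨B, hB, v, hv, hvB, hr⟩ := Nat.sSup_mem hSn hSb
    set r := sSup S with hrdef
    have hmax : ∀ B ≤ W, ∀ v ∈ W, v ∉ B → Module.finrank K ↥(NN B v) ≤ r :=
      fun B hB v hv hvB => le_csSup hSb ⟨B, hB, v, hv, hvB, rfl⟩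
    have hNW : NN B v ≤ W := (NN_le _ _).trans hB
    have hNM : NN B v ≤ ℳ 1 := hNW.trans hW
    have h1 := ih (NN B v) hNM (by
      intro m hm
      have h2 : xn (ℳ 1) (B ⊔ K ∙ v) (m + 1) ≤ xn (ℳ 1) W (m + 1) :=
        xn_mono h hW (sup_le hB (by rw [Submodule.span_singleton_le_iff_mem]; exact hv)) m
      rw [hn (m + 1) (by omega), xn_succ h (hB.trans hW) (hW hv) hvB] at h2
      omega)
    have h2 := xn_two_le h hW hNW hmax
    have h3 : Module.finrank K ↥(NN B v) ≤ Module.finrank K W := Submodule.finrank_mono hNW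
    rw [hr] at h1 h2 h3
    set d := Module.finrank K W with hd
    set a := xn (ℳ 1) W 2
    set b := xn (ℳ 1) (NN B v) 2
    have h4 : (a : ℤ) ≤ b + ((d : ℤ) - r) * r := by
      have : (a : ℤ) ≤ ((b + (d - r) * r : ℕ) : ℤ) := by exact_mod_cast h2
      rw [Nat.cast_add, Nat.cast_mul, Nat.cast_sub h3] at this
      exact this
    have hnpos : (0 : ℤ) < n := by
      have := Nat.pos_of_ne_zero hn0
      exact_mod_cast this
    push_cast
    have h5 : (n : ℤ) * (2 * ((n : ℤ) + 1) * a) ≤ n * (((n : ℤ) + 1 - 1) * (d : ℤ) ^ 2) := by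
      nlinarith [sq_nonneg ((n : ℤ) * d - ((n : ℤ) + 1) * r),
        mul_le_mul_of_nonneg_left h4 (by positivity : (0 : ℤ) ≤ 2 * n * (n + 1)),
        mul_le_mul_of_nonneg_left h1 (by positivity : (0 : ℤ) ≤ n + 1)]
    exact le_of_mul_le_mul_left h5 hnpos

end H89R3.BK
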