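import Pool.Agent.H89R3.BK.Defs
import Pool.Agent.H89R3.BK.Coc

/-!
# Quadratic subalgebras and the key exactness
-/

set_option autoImplicit false

namespace H89R3.BK

variable {K : Type} [Field K] {L : Type} [LieRing L] [LieAlgebra K L]

/-- induction on the free Lie algebra -/
lemma free_induction {X : Type} {p : FreeLieAlgebra K X → Prop}
    (of : ∀ x, p (FreeLieAlgebra.of K x)) (zero : p 0)
    (add : ∀ x y, p x → p y → p (x + y)) (smul : ∀ (a : K) x, p x → p (a • x))
    (lie : ∀ x y, p x → p y → p ⁅x, y⁆) (z : FreeLieAlgebra K X) : p z := by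
  let S : LieSubalgebra K (FreeLieAlgebra K X) :=
    { carrier := {z | p z}
      add_mem' := fun {x y} hx hy => add x y hx hy
      zero_mem' := zero
      smul_mem' := fun a x hx => smul a x hx
      lie_mem' := fun {x y} hx hy => lie x y hx hy }
  let f : FreeLieAlgebra K X →ₗ⁅K⁆ S := FreeLieAlgebra.lift K fun x => ⟨FreeLieAlgebra.of K x, of x⟩
  have h : S.incl.comp f = LieHom.id := by
    apply FreeLieAlgebra.hom_ext
    intro x
    simp [f]
  have h2 : (S.incl.comp f) z = z := by rw [h]; rfl
  rw [← h2]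
  exact (f z).2

section

variable {d : ℕ} (w : Fin d → L) {E : Type} [AddCommGroup E] [Module K E]
    [Module (UniversalEnvelopingAlgebra K L) E]
    [IsScalarTower K (UniversalEnvelopingAlgebra K L) E]

attribute [local instance 100] LieRing.ofAssociativeRing

/-- the generators of the action on `E × K` -/
noncomputable def T (x : L) (e : E) : Module.End K (E × K) where
  toFun p := (UniversalEnvelopingAlgebra.ι K x • p.1 + p.2 • e, 0)
  map_add' p q := by
    ext
    · simp only [Prod.fst_add, Prod.snd_add, smul_add, add_smul]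
      abel
    · simp
  map_smul' a p := by
    ext
    · simp only [Prod.smul_fst, Prod.smul_snd, smul_add, RingHom.id_apply, smul_assoc]
      rw [smul_comm]
    · simp

lemma T_apply (x : L) (e : E) (p : E × K) :
    T x e p = (UniversalEnvelopingAlgebra.ι K x • p.1 + p.2 • e, 0) := rfl

/-- the action of the free Lie algebra -/
noncomputable def F (e : Fin d → E) : FreeLieAlgebra K (Fin d) →ₗ⁅K⁆ Module.End K (E × K) :=
  FreeLieAlgebra.lift K fun i => T (w i) (e i)

lemma F_apply (e : Fin d → E) (z : FreeLieAlgebra K (Fin d)) : ∀ p : E × K,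
    F w e z p = (UniversalEnvelopingAlgebra.ι K (FreeLieAlgebra.lift K w z) • p.1 +
      p.2 • (F w e z (0, 1)).1, 0) := by
  refine free_induction (p := fun z => ∀ p : E × K,
    F w e z p = (UniversalEnvelopingAlgebra.ι K (FreeLieAlgebra.lift K w z) • p.1 +
      p.2 • (F w e z (0, 1)).1, 0)) ?_ ?_ ?_ ?_ ?_ z
  · intro i p
    rw [F, FreeLieAlgebra.lift_of_apply, FreeLieAlgebra.lift_of_apply, T_apply, T_apply]
    simp
  · intro p
    simp only [map_zero, LinearMap.zero_apply, zero_smul, Prod.fst_zero, smul_zero, add_zero]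
    rfl
  · intro x y hx hy p
    rw [map_add, LinearMap.add_apply, hx p, hy p, map_add, map_add]
    ext
    · simp only [Prod.fst_add, LinearMap.add_apply, add_smul, smul_add]
      abel
    · simp
  · intro a x hx p
    rw [map_smul, LinearMap.smul_apply, hx p, map_smul, map_smul]
    ext
    · simp only [Prod.smul_fst, LinearMap.smul_apply, smul_add, smul_assoc]
      rw [smul_comm a p.2]
    · simp
  · intro x y hx hy p
    have h1 : ∀ q : E × K, F w e ⁅x, y⁆ q = F w e x (F w e y q) - F w e y (F w e x q) := by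
      intro q
      rw [LieHom.map_lie, LieRing.of_associative_ring_bracket]
      rfl
    have hx1 : F w e x (0, 1) = ((F w e x (0, 1)).1, 0) := Prod.ext rfl (by rw [hx])
    have hy1 : F w e y (0, 1) = ((F w e y (0, 1)).1, 0) := Prod.ext rfl (by rw [hy])
    generalize (F w e x (0, 1)).1 = A at hx hx1
    generalize (F w e y (0, 1)).1 = B at hy hy1
    rw [h1 p, h1 (0, 1), hx1, hy1, hx (F w e y p), hy (F w e x p), hx p, hy p, hx (B, 0),
      hy (A, 0), LieHom.map_lie, ← lie_ι]
    ext
    · simp only [Prod.fst_sub, smul_add, sub_smul, mul_smul, smul_zero,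
        zero_add, one_smul, zero_smul, add_zero, smul_sub]
      rw [smul_comm p.2 (UniversalEnvelopingAlgebra.ι K (FreeLieAlgebra.lift K w x)),
        smul_comm p.2 (UniversalEnvelopingAlgebra.ι K (FreeLieAlgebra.lift K w y))]
      abel
    · simp

/-- the cocycle on the free Lie algebra -/
noncomputable def C (e : Fin d → E) : FreeLieAlgebra K (Fin d) →ₗ[K] E where
  toFun z := (F w e z (0, 1)).1
  map_add' x y := by simp
  map_smul' a x := by simp

lemma C_of (e : Fin d → E) (i : Fin d) : C w e (FreeLieAlgebra.of K i) = e i := by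
  change (F w e _ (0, 1)).1 = _
  rw [F, FreeLieAlgebra.lift_of_apply, T_apply]
  simp

lemma C_lie (e : Fin d → E) (x y : FreeLieAlgebra K (Fin d)) : C w e ⁅x, y⁆ =
    UniversalEnvelopingAlgebra.ι K (FreeLieAlgebra.lift K w x) • C w e y -
      UniversalEnvelopingAlgebra.ι K (FreeLieAlgebra.lift K w y) • C w e x := by
  have h1 : ∀ q : E × K, F w e ⁅x, y⁆ q = F w e x (F w e y q) - F w e y (F w e x q) := by
    intro q
    rw [LieHom.map_lie, LieRing.of_associative_ring_bracket]
    rfl
  change (F w e ⁅x, y⁆ (0, 1)).1 = _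
  rw [h1, F_apply w e x (F w e y (0, 1)), F_apply w e y (F w e x (0, 1)),
    F_apply w e y (0, 1), F_apply w e x (0, 1)]
  simp [C]

/-- **Existence of cocycles on quadratic algebras.** -/
lemma exists_cocycle
    (hq : (FreeLieAlgebra.lift K w).ker ≤
      LieSubmodule.lieSpan K (FreeLieAlgebra K (Fin d))
        {z | z ∈ (FreeLieAlgebra.lift K w).ker ∧
          z ∈ Submodule.span K (Set.range fun p : Fin d × Fin d =>
            ⁅FreeLieAlgebra.of K p.1, FreeLieAlgebra.of K p.2⁆)})
    (e : Fin d → E)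
    (he : ∀ r : Fin d × Fin d → K, ∑ p, r p • ⁅w p.1, w p.2⁆ = 0 →
      ∑ p, r p • (UniversalEnvelopingAlgebra.ι K (w p.1) • e p.2 -
        UniversalEnvelopingAlgebra.ι K (w p.2) • e p.1) = 0) :
    ∃ c : (FreeLieAlgebra.lift K w).range →ₗ[K] E,
      (∀ x y : (FreeLieAlgebra.lift K w).range, c ⁅x, y⁆ =
        UniversalEnvelopingAlgebra.ι K (x : L) • c y -
        UniversalEnvelopingAlgebra.ι K (y : L) • c x) ∧
      ∀ (i : Fin d) (x : (FreeLieAlgebra.lift K w).range), (x : L) = w i → c x = e i := by
  set φ := FreeLieAlgebra.lift K w with hφ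
  have hker : ∀ z, φ z = 0 → C w e z = 0 := by
    intro z hz
    let I : LieIdeal K (FreeLieAlgebra K (Fin d)) :=
      { carrier := {z | φ z = 0 ∧ C w e z = 0}
        add_mem' := by
          rintro a b ⟨ha, ha'⟩ ⟨hb, hb'⟩
          exact ⟨by rw [map_add, ha, hb, add_zero], by rw [map_add, ha', hb', add_zero]⟩
        zero_mem' := ⟨map_zero _, map_zero _⟩
        smul_mem' := by
          rintro a b ⟨hb, hb'⟩
          exact ⟨by rw [map_smul, hb, smul_zero], by rw [map_smul, hb', smul_zero]⟩
        lie_mem := by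
          rintro x m ⟨hm, hm'⟩
          refine ⟨by rw [LieHom.map_lie, hm, lie_zero], ?_⟩
          rw [C_lie, hm', ← hφ, hm, smul_zero, map_zero, zero_smul, sub_zero] }
    have hle : LieSubmodule.lieSpan K (FreeLieAlgebra K (Fin d))
        {z | z ∈ (FreeLieAlgebra.lift K w).ker ∧
          z ∈ Submodule.span K (Set.range fun p : Fin d × Fin d =>
            ⁅FreeLieAlgebra.of K p.1, FreeLieAlgebra.of K p.2⁆)} ≤ I := by
      rw [LieSubmodule.lieSpan_le]
      rintro y ⟨hy1, hy2⟩
      have hy1' : φ y = 0 := LieHom.mem_ker.1 hy1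
      refine ⟨hy1', ?_⟩
      rw [Submodule.mem_span_range_iff_exists_fun] at hy2
      obtain ⟨r, rfl⟩ := hy2
      have h1 := he r (by
        rw [← hy1', map_sum]
        refine Finset.sum_congr rfl fun p _ => ?_
        rw [map_smul, LieHom.map_lie, hφ, FreeLieAlgebra.lift_of_apply,
          FreeLieAlgebra.lift_of_apply])
      rw [map_sum, ← h1]
      refine Finset.sum_congr rfl fun p _ => ?_
      rw [map_smul, C_lie, FreeLieAlgebra.lift_of_apply, FreeLieAlgebra.lift_of_apply, C_of, C_of]
    exact (hle (hq (LieHom.mem_ker.2 hz))).2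
  have hsurj : LinearMap.range (φ.rangeRestrict : FreeLieAlgebra K (Fin d) →ₗ[K] φ.range) = ⊤ := by
    rw [LinearMap.range_eq_top]
    exact φ.surjective_rangeRestrict
  obtain ⟨g, hg⟩ := LinearMap.exists_rightInverse_of_surjective _ hsurj
  have hcz : ∀ (z : FreeLieAlgebra K (Fin d)) (x : φ.range), (x : L) = φ z →
      C w e (g x) = C w e z := by
    intro z x hx
    have h1 : φ.rangeRestrict (g x) = x := LinearMap.congr_fun hg x
    have h2 : φ (g x - z) = 0 := by
      rw [map_sub, ← hx, sub_eq_zero]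
      exact congrArg Subtype.val h1
    have h3 := hker _ h2
    rw [map_sub] at h3
    exact sub_eq_zero.1 h3
  refine ⟨(C w e).comp g, ?_, ?_⟩
  · intro x y
    obtain ⟨a, ha⟩ := x.2
    obtain ⟨b, hb⟩ := y.2
    rw [LinearMap.comp_apply, LinearMap.comp_apply, LinearMap.comp_apply,
      hcz a x ha.symm, hcz b y hb.symm, hcz ⁅a, b⁆ ⁅x, y⁆ (by
        rw [LieHom.map_lie]; exact congrArg₂ (fun p q : L => ⁅p, q⁆) ha.symm hb.symm), C_lie,
      ← ha, ← hb]
    rfl
  · intro i x hx
    rw [LinearMap.comp_apply, hcz (FreeLieAlgebra.of K i) x (by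
      rw [hx]; exact (FreeLieAlgebra.lift_of_apply w i).symm), C_of]

end

end H89R3.BK
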