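import Pool.Agent.H89R3.BK.Grad

/-!
# Linear resolutions
-/

set_option autoImplicit false

namespace H89R3.BK

open Matrix

variable {K : Type} [Field K] {L : Type} [LieRing L] [LieAlgebra K L]

/-- Linear free resolution (row vectors) of the left ideal generated by `W`. -/
structure LinRes (V W : Submodule K L) where
  /-- index types of the bases -/
  X : ℕ → Type
  [fin : ∀ m, Fintype (X m)]
  [uniq : Unique (X 0)]
  /-- the differentials -/
  D : ∀ m, Matrix (X (m + 1)) (X m) (UniversalEnvelopingAlgebra K L)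
  lin : ∀ m i j, D m i j ∈ S1 V
  comp : ∀ m, D (m + 1) * D m = 0
  exact : ∀ m (u : X (m + 1) → UniversalEnvelopingAlgebra K L), u ᵥ* D m = 0 →
    ∃ u' : X (m + 2) → UniversalEnvelopingAlgebra K L, u' ᵥ* D (m + 1) = u
  aug : ∀ u : X 0 → UniversalEnvelopingAlgebra K L, u default ∈ LI W ↔
    ∃ u' : X 1 → UniversalEnvelopingAlgebra K L, u' ᵥ* D 0 = u

attribute [instance] LinRes.fin LinRes.uniq

/-- base case -/
def botX : ℕ → Type
  | 0 => Unit
  | _ + 1 => Empty

instance botFin : ∀ m, Fintype (botX m)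
  | 0 => inferInstanceAs (Fintype Unit)
  | _ + 1 => inferInstanceAs (Fintype Empty)

instance botUniq : Unique (botX 0) := inferInstanceAs (Unique Unit)

instance botEmpty (m : ℕ) : IsEmpty (botX (m + 1)) := inferInstanceAs (IsEmpty Empty)

lemma LI_bot : LI (⊥ : Submodule K L) = ⊥ := by
  rw [LI, Submodule.bot_coe, Set.image_singleton, map_zero, Submodule.span_zero_singleton]

/-- the resolution of the zero ideal -/
def botRes (V : Submodule K L) : LinRes V (⊥ : Submodule K L) where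
  X := botX
  D m := fun i _ => (IsEmpty.false i).elim
  lin m i := (IsEmpty.false i).elim
  comp m := by
    ext i
    exact (IsEmpty.false i).elim
  exact m u _ := ⟨fun i => (IsEmpty.false i).elim, by
    ext i
    exact (IsEmpty.false i).elim⟩
  aug u := by
    rw [LI_bot, Submodule.mem_bot]
    constructor
    · intro h
      refine ⟨fun i => (IsEmpty.false i).elim, ?_⟩
      ext i
      rw [Subsingleton.elim i default, h]
      simp [vecMul, dotProduct]
    · rintro ⟨u', rfl⟩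
      simp [vecMul, dotProduct]

section

variable {V W W' : Submodule K L}

variable (RY : LinRes V W) (RX : LinRes V W')

/-- index types of the cone -/
def coneX : ℕ → Type
  | 0 => RY.X 0
  | m + 1 => RY.X (m + 1) ⊕ RX.X m

instance coneFin : ∀ m, Fintype (coneX RY RX m)
  | 0 => inferInstanceAs (Fintype (RY.X 0))
  | m + 1 => inferInstanceAs (Fintype (RY.X (m + 1) ⊕ RX.X m))

instance coneUniq : Unique (coneX RY RX 0) := inferInstanceAs (Unique (RY.X 0))

/-- differentials of the cone -/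
def coneD (Φ : ∀ m, Matrix (RX.X m) (RY.X m) (UniversalEnvelopingAlgebra K L)) :
    ∀ m, Matrix (coneX RY RX (m + 1)) (coneX RY RX m) (UniversalEnvelopingAlgebra K L)
  | 0 => fromRows (RY.D 0) (Φ 0)
  | m + 1 => fromBlocks (RY.D (m + 1)) 0 (Φ (m + 1)) (- RX.D m)

variable {RY RX}

/-- **existence of a linear lift** -/
lemma lift_step {π1 π2 : UniversalEnvelopingAlgebra K L →ₗ[K] UniversalEnvelopingAlgebra K L}
    (h1 : ∀ u, π1 u ∈ S1 V) (h2 : ∀ u, ∀ s ∈ S1 V, π2 (u * s) = π1 u * s)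
    {X Y Z : Type} [Fintype Y] (E : Matrix Y Z (UniversalEnvelopingAlgebra K L))
    (hE : ∀ i j, E i j ∈ S1 V) (A : Matrix X Z (UniversalEnvelopingAlgebra K L))
    (hA : ∀ i j, π2 (A i j) = A i j) (hAE : ∀ i, ∃ u', u' ᵥ* E = A i) :
    ∃ Φ : Matrix X Y (UniversalEnvelopingAlgebra K L), (∀ i j, Φ i j ∈ S1 V) ∧ A = Φ * E := by
  choose u' hu' using hAE
  refine ⟨Matrix.of fun i j => π1 (u' i j), fun i j => h1 _, ?_⟩
  ext i k
  rw [← hA i k, ← hu' i, Matrix.mul_apply]
  simp only [vecMul, dotProduct, map_sum, Matrix.of_apply]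
  exact Finset.sum_congr rfl fun j _ => h2 _ _ (hE _ _)

/-- the chain map -/
lemma exists_chain {π1 π2 : UniversalEnvelopingAlgebra K L →ₗ[K] UniversalEnvelopingAlgebra K L}
    (h1 : ∀ u, π1 u ∈ S1 V) (h1' : ∀ s ∈ S1 V, π1 s = s)
    (h2 : ∀ u, ∀ s ∈ S1 V, π2 (u * s) = π1 u * s) {v : L} (hv : v ∈ V)
    (hW : ∀ u ∈ LI W', u * UniversalEnvelopingAlgebra.ι K v ∈ LI W) :
    ∃ Φ : ∀ m, Matrix (RX.X m) (RY.X m) (UniversalEnvelopingAlgebra K L),
      (∀ m i j, Φ m i j ∈ S1 V) ∧ (∀ i j, Φ 0 i j = UniversalEnvelopingAlgebra.ι K v) ∧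
      ∀ m, RX.D m * Φ m = Φ (m + 1) * RY.D m := by
  classical
  let Good : ∀ m, Matrix (RX.X m) (RY.X m) (UniversalEnvelopingAlgebra K L) → Prop :=
    fun m Φ => (∀ i j, Φ i j ∈ S1 V) ∧ ∀ i, ∃ u', u' ᵥ* RY.D m = (RX.D m * Φ) i
  have hstep : ∀ m (Φ : Matrix (RX.X m) (RY.X m) (UniversalEnvelopingAlgebra K L)), Good m Φ →
      ∃ Φ' : Matrix (RX.X (m + 1)) (RY.X (m + 1)) (UniversalEnvelopingAlgebra K L),
        Good (m + 1) Φ' ∧ RX.D m * Φ = Φ' * RY.D m := by
    rintro m Φ ⟨hΦ, hΦ'⟩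
    obtain ⟨Φ', hl, he⟩ := lift_step h1 h2 (RY.D m) (RY.lin m) (RX.D m * Φ) (by
      intro i j
      rw [Matrix.mul_apply, map_sum]
      refine Finset.sum_congr rfl fun k _ => ?_
      rw [h2 _ _ (hΦ k j), h1' _ (RX.lin m i k)]) hΦ'
    refine ⟨Φ', ⟨hl, ?_⟩, he⟩
    intro i
    apply RY.exact m
    have h3 : (RX.D (m + 1) * Φ') * RY.D m = 0 := by
      rw [Matrix.mul_assoc, ← he, ← Matrix.mul_assoc, RX.comp, Matrix.zero_mul]
    ext k
    exact congrFun (congrFun h3 i) k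
  have h0 : Good 0 (Matrix.of fun _ _ => UniversalEnvelopingAlgebra.ι K v) := by
    refine ⟨fun _ _ => ⟨v, hv, rfl⟩, ?_⟩
    intro i
    rw [← RY.aug]
    have h3 : (RX.D 0 i : RX.X 0 → UniversalEnvelopingAlgebra K L) default ∈ LI W' :=
      (RX.aug _).2 ⟨Pi.single i 1, by rw [single_one_vecMul]; rfl⟩
    have h4 := hW _ h3
    rw [Matrix.mul_apply, Fintype.sum_unique]
    exact h4
  let seq : ∀ m, {Φ : Matrix (RX.X m) (RY.X m) (UniversalEnvelopingAlgebra K L) // Good m Φ} :=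
    fun m => Nat.rec ⟨Matrix.of fun _ _ => UniversalEnvelopingAlgebra.ι K v, h0⟩
      (fun m Φ => ⟨(hstep m Φ.1 Φ.2).choose, (hstep m Φ.1 Φ.2).choose_spec.1⟩) m
  refine ⟨fun m => (seq m).1, fun m => (seq m).2.1, fun _ _ => rfl, ?_⟩
  intro m
  exact (hstep m (seq m).1 (seq m).2).choose_spec.2

lemma coneD_comp {Φ : ∀ m, Matrix (RX.X m) (RY.X m) (UniversalEnvelopingAlgebra K L)}
    (hΦ : ∀ m, RX.D m * Φ m = Φ (m + 1) * RY.D m) (m : ℕ) :
    coneD RY RX Φ (m + 1) * coneD RY RX Φ m = 0 := by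
  cases m with
  | zero =>
    change fromBlocks (RY.D 1) 0 (Φ 1) (- RX.D 0) * fromRows (RY.D 0) (Φ 0) = 0
    ext i k
    rcases i with i | i
    · have h := congrFun (congrFun (RY.comp 0) i) k
      rw [Matrix.mul_apply] at h
      rw [Matrix.mul_apply, Fintype.sum_sum_type]
      simp only [fromBlocks_apply₁₁, fromBlocks_apply₁₂, fromRows_apply_inl, fromRows_apply_inr,
        Matrix.zero_apply, zero_mul, Finset.sum_const_zero, add_zero]
      exact h
    · have h := congrFun (congrFun (hΦ 0) i) k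
      rw [Matrix.mul_apply, Matrix.mul_apply] at h
      rw [Matrix.mul_apply, Fintype.sum_sum_type]
      simp only [fromBlocks_apply₂₁, fromBlocks_apply₂₂, fromRows_apply_inl, fromRows_apply_inr,
        Matrix.neg_apply, neg_mul, Finset.sum_neg_distrib]
      rw [← h, Matrix.zero_apply, add_neg_cancel]
  | succ m =>
    change fromBlocks (RY.D (m + 2)) 0 (Φ (m + 2)) (- RX.D (m + 1)) *
      fromBlocks (RY.D (m + 1)) 0 (Φ (m + 1)) (- RX.D m) = 0
    rw [fromBlocks_multiply, RY.comp, ← hΦ (m + 1)]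
    simp only [Matrix.zero_mul, Matrix.mul_zero, add_zero, Matrix.neg_mul, Matrix.mul_neg,
      neg_neg, RX.comp, add_neg_cancel]
    exact fromBlocks_zero

/-- exactness for the cone, general step -/
lemma cone_exact_aux {Φ : ∀ m, Matrix (RX.X m) (RY.X m) (UniversalEnvelopingAlgebra K L)}
    (hΦ : ∀ m, RX.D m * Φ m = Φ (m + 1) * RY.D m) (m : ℕ)
    (a : RY.X (m + 1) → UniversalEnvelopingAlgebra K L)
    (x' : RX.X (m + 1) → UniversalEnvelopingAlgebra K L)
    (h : a ᵥ* RY.D m + (x' ᵥ* RX.D m) ᵥ* Φ m = 0) :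
    ∃ u' : coneX RY RX (m + 2) → UniversalEnvelopingAlgebra K L,
      u' ᵥ* coneD RY RX Φ (m + 1) = (Sum.elim a (x' ᵥ* RX.D m) :
        RY.X (m + 1) ⊕ RX.X m → UniversalEnvelopingAlgebra K L) := by
  have h1 : (a + x' ᵥ* Φ (m + 1)) ᵥ* RY.D m = 0 := by
    rw [add_vecMul, vecMul_vecMul, ← hΦ, ← vecMul_vecMul, h]
  obtain ⟨y, hy⟩ := RY.exact m _ h1
  refine ⟨(Sum.elim y (-x') : RY.X (m + 2) ⊕ RX.X (m + 1) → UniversalEnvelopingAlgebra K L), ?_⟩
  change (Sum.elim y (-x') : RY.X (m + 2) ⊕ RX.X (m + 1) → UniversalEnvelopingAlgebra K L) ᵥ*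
    fromBlocks (RY.D (m + 1)) 0 (Φ (m + 1)) (- RX.D m) = _
  rw [vecMul_fromBlocks]
  have e1 : (Sum.elim y (-x') : RY.X (m + 2) ⊕ RX.X (m + 1) → UniversalEnvelopingAlgebra K L) ∘
    Sum.inl = y := rfl
  have e2 : (Sum.elim y (-x') : RY.X (m + 2) ⊕ RX.X (m + 1) → UniversalEnvelopingAlgebra K L) ∘
    Sum.inr = -x' := rfl
  rw [e1, e2, hy, neg_vecMul, neg_vecMul, vecMul_neg, neg_neg, vecMul_zero, zero_add,
    add_neg_cancel_right]

lemma cone_exact_zero {Φ : ∀ m, Matrix (RX.X m) (RY.X m) (UniversalEnvelopingAlgebra K L)}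
    (hΦ : ∀ m, RX.D m * Φ m = Φ (m + 1) * RY.D m)
    (h : ∀ u : RY.X 1 ⊕ RX.X 0 → UniversalEnvelopingAlgebra K L,
      u ᵥ* fromRows (RY.D 0) (Φ 0) = 0 → (u ∘ Sum.inl) ᵥ* RY.D 0 + (u ∘ Sum.inr) ᵥ* Φ 0 = 0 ∧
      ∃ x', x' ᵥ* RX.D 0 = u ∘ Sum.inr)
    (u : RY.X 1 ⊕ RX.X 0 → UniversalEnvelopingAlgebra K L)
    (hu : u ᵥ* fromRows (RY.D 0) (Φ 0) = 0) :
    ∃ u' : coneX RY RX 2 → UniversalEnvelopingAlgebra K L,
      u' ᵥ* coneD RY RX Φ 1 = (u : RY.X 1 ⊕ RX.X 0 → UniversalEnvelopingAlgebra K L) := by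
  obtain ⟨e0, x', hx'⟩ := h u hu
  rw [← hx'] at e0
  obtain ⟨u', hu'⟩ := cone_exact_aux hΦ 0 _ x' e0
  refine ⟨u', hu'.trans ?_⟩
  rw [hx']
  exact Sum.elim_comp_inl_inr _

lemma cone_exact_succ {Φ : ∀ m, Matrix (RX.X m) (RY.X m) (UniversalEnvelopingAlgebra K L)}
    (hΦ : ∀ m, RX.D m * Φ m = Φ (m + 1) * RY.D m) (m : ℕ)
    (u : RY.X (m + 2) ⊕ RX.X (m + 1) → UniversalEnvelopingAlgebra K L)
    (hu : u ᵥ* fromBlocks (RY.D (m + 1)) 0 (Φ (m + 1)) (- RX.D m) = 0) :
    ∃ u' : coneX RY RX (m + 3) → UniversalEnvelopingAlgebra K L,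
      u' ᵥ* coneD RY RX Φ (m + 2) =
        (u : RY.X (m + 2) ⊕ RX.X (m + 1) → UniversalEnvelopingAlgebra K L) := by
  rw [vecMul_fromBlocks, vecMul_zero, zero_add, vecMul_neg] at hu
  have e0 : (u ∘ Sum.inl) ᵥ* RY.D (m + 1) + (u ∘ Sum.inr) ᵥ* Φ (m + 1) = 0 := by
    ext k
    exact congrFun hu (Sum.inl k)
  have e1 : (u ∘ Sum.inr) ᵥ* RX.D m = 0 := by
    ext k
    exact neg_eq_zero.1 (congrFun hu (Sum.inr k))
  obtain ⟨x', hx'⟩ := RX.exact m _ e1
  rw [← hx'] at e0
  obtain ⟨u', hu'⟩ := cone_exact_aux hΦ (m + 1) _ x' e0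
  refine ⟨u', hu'.trans ?_⟩
  rw [hx']
  exact Sum.elim_comp_inl_inr _

/-- **The mapping cone.** -/
lemma exists_cone {π1 π2 : UniversalEnvelopingAlgebra K L →ₗ[K] UniversalEnvelopingAlgebra K L}
    (h1 : ∀ u, π1 u ∈ S1 V) (h1' : ∀ s ∈ S1 V, π1 s = s)
    (h2 : ∀ u, ∀ s ∈ S1 V, π2 (u * s) = π1 u * s) {v : L} (hv : v ∈ V)
    (hW : ∀ u, u ∈ LI W' ↔ u * UniversalEnvelopingAlgebra.ι K v ∈ LI W) :
    ∃ R : LinRes V (W ⊔ K ∙ v), ∀ m, Fintype.card (R.X (m + 1)) =
      Fintype.card (RY.X (m + 1)) + Fintype.card (RX.X m) := by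
  classical
  obtain ⟨Φ, hl, h0, hΦ⟩ := exists_chain (RX := RX) (RY := RY) h1 h1' h2 hv (fun u => (hW u).1)
  refine ⟨
    { X := coneX RY RX
      D := coneD RY RX Φ
      lin := ?_
      comp := coneD_comp hΦ
      exact := ?_
      aug := ?_ }, ?_⟩
  · intro m i j
    cases m with
    | zero =>
      rcases i with i | i
      · exact RY.lin 0 i j
      · exact hl 0 i j
    | succ m =>
      rcases i with i | i <;> rcases j with j | j
      · exact RY.lin (m + 1) i j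
      · exact Submodule.zero_mem _
      · exact hl (m + 1) i j
      · exact Submodule.neg_mem _ (RX.lin m i j)
  · intro m u hu
    cases m with
    | zero =>
      refine cone_exact_zero hΦ ?_ u hu
      intro u hu
      have e0 : (u ∘ Sum.inl) ᵥ* RY.D 0 + (u ∘ Sum.inr) ᵥ* Φ 0 = 0 := by
        rw [← hu]
        ext k
        simp only [vecMul, dotProduct, Fintype.sum_sum_type, Pi.add_apply, Function.comp_apply,
          fromRows_apply_inl, fromRows_apply_inr]
      have e1 : (u ∘ Sum.inr) default ∈ LI W' := by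
        rw [hW]
        have e2 := congrFun e0 default
        rw [Pi.add_apply, Pi.zero_apply, add_comm, add_eq_zero_iff_eq_neg] at e2
        have e3 : ((u ∘ Sum.inr) ᵥ* Φ 0) default = (u ∘ Sum.inr) default *
              UniversalEnvelopingAlgebra.ι K v := by
          rw [vecMul, dotProduct, Fintype.sum_unique, h0]
        rw [← e3, e2]
        exact Submodule.neg_mem _ ((RY.aug _).2 ⟨_, rfl⟩)
      exact ⟨e0, (RX.aug _).1 e1⟩
    | succ m => exact cone_exact_succ hΦ m u hu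
  · intro u
    change (u : RY.X 0 → UniversalEnvelopingAlgebra K L) default ∈ _ ↔
      ∃ u' : RY.X 1 ⊕ RX.X 0 → UniversalEnvelopingAlgebra K L,
        u' ᵥ* fromRows (RY.D 0) (Φ 0) = u
    have hLI : ∀ z : UniversalEnvelopingAlgebra K L, z ∈ LI (W ⊔ K ∙ v) ↔
        ∃ y, z - y * UniversalEnvelopingAlgebra.ι K v ∈ LI W := by
      intro z
      constructor
      · intro hz
        induction hz using Submodule.span_induction with
        | mem z hz =>
          obtain ⟨x, hx, rfl⟩ := hz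
          obtain ⟨a, ha, c, hc, rfl⟩ := Submodule.mem_sup.1 hx
          obtain ⟨t, rfl⟩ := Submodule.mem_span_singleton.1 hc
          refine ⟨algebraMap K _ t, ?_⟩
          rw [← Algebra.smul_def, ← map_smul, ← map_sub, add_sub_cancel_right]
          exact ι_mem_LI ha
        | zero => exact ⟨0, by rw [zero_mul, sub_zero]; exact Submodule.zero_mem _⟩
        | add x y _ _ hx hy =>
          obtain ⟨a, ha⟩ := hx
          obtain ⟨b, hb⟩ := hy
          refine ⟨a + b, ?_⟩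
          have := Submodule.add_mem _ ha hb
          rw [add_mul]
          convert this using 1
          abel
        | smul t x _ hx =>
          obtain ⟨a, ha⟩ := hx
          refine ⟨t * a, ?_⟩
          have := mul_mem_LI ha t
          rw [smul_eq_mul]
          rwa [mul_sub, ← mul_assoc] at this
      · rintro ⟨y, hy⟩
        have h3 : y * UniversalEnvelopingAlgebra.ι K v ∈ LI (W ⊔ K ∙ v) :=
          mul_mem_LI (ι_mem_LI (Submodule.mem_sup_right (Submodule.mem_span_singleton_self v))) _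
        have h4 := Submodule.add_mem _ (LI_mono le_sup_left hy) h3
        rwa [sub_add_cancel] at h4
    rw [hLI]
    constructor
    · rintro ⟨y, hy⟩
      obtain ⟨a, ha⟩ := (RY.aug (fun _ => u default - y * UniversalEnvelopingAlgebra.ι K v)).1 hy
      refine ⟨Sum.elim a (fun _ => y), ?_⟩
      ext k
      have hk : k = default := Subsingleton.elim _ _
      subst hk
      have h3 := congrFun ha default
      simp only [vecMul, dotProduct, Fintype.sum_sum_type, Sum.elim_inl, Sum.elim_inr,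
        fromRows_apply_inl, fromRows_apply_inr, Fintype.sum_unique, h0] at h3 ⊢
      rw [h3]
      exact sub_add_cancel _ _
    · rintro ⟨u', rfl⟩
      refine ⟨u' (Sum.inr default), ?_⟩
      have h3 := (RY.aug ((u' ∘ Sum.inl) ᵥ* RY.D 0)).2 ⟨_, rfl⟩
      convert h3 using 1
      rw [sub_eq_iff_eq_add]
      change (u' ᵥ* fromRows (RY.D 0) (Φ 0)) default = _
      simp only [vecMul, dotProduct, Fintype.sum_sum_type, fromRows_apply_inl,
        fromRows_apply_inr, Fintype.sum_unique, h0, Function.comp_apply]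
  · intro m
    exact Fintype.card_sum

end

end H89R3.BK
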